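import Pool.Agent.helper79.SX.Defs

/-!
# Project sx (MP_5628fe_nt): almost primes `m`, `m + 6` between all consecutive cubes

Final theorem: for every `n ≥ 3` the set `Tset n` (Defs.lean) has at least `n` elements and at least
`n ^ 2 / (20 (log n) ^ 2)` elements.

Method: a block sieve whose error functions are computed by a dynamical programme, verified by the kernel
(certificate: files T0 - T7, D, Tab, Pc; not needed for the modules), and Richert's weights.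

Notation: `δ = log 2 / 10`, so `p ^ 10 < 2 ^ h` means `log p < h δ`. `10 / log 2 ≤ 14.4269505`.

Rules: file `Pool/Agent/<seat>/SX/XX.lean`: `import Pool.Agent.helper79.SX.Spec`, `namespace Pool.Agent.SX`,
`theorem XX (h1 : AA_stmt) ... : XX_stmt` (other statements of this file as hypotheses, no circles),
auxiliary lemmas prefixed `XX_`.
-/

set_option autoImplicit false

open Finset ArithmeticFunction

namespace Pool.Agent.SX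

/-! ## Part A: the sieve -/

/-- **MON** (short). Monotonicity and the trivial lower bound. For `28 ≤ h`: `X > 0`, `g D ≥ 0`,
`V (Pr h) ≥ 0` (the factors are `1 - 2 / p`, `p ≥ 7`); `2 ^ B ≤ 2 ^ B'`, so the size condition for `B'` implies
the one for `B`. `Lo h B 1` says `0 ≤ S`. -/
def MON_stmt : Prop := ∀ h : ℕ, 28 ≤ h →
  (∀ (B B' : ℕ) (v v' : ℝ), B ≤ B' → v ≤ v' → Up h B v → Up h B' v') ∧
  (∀ (B B' : ℕ) (v v' : ℝ), B ≤ B' → v ≤ v' → Lo h B v → Lo h B' v') ∧ ∀ B : ℕ, Lo h B 1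

/-- **BAS** (short). `Pr 28 = ∅` since `7 ^ 10 > 2 ^ 28`; `V ∅ = 1`. The primes of `D` are `≥ 7` since
`6 ^ 10 < 2 ^ 28`. `Dens`: `|S A ∅ D - X g D| ≤ 2 ^ |D| = g D ∏ D`, and
`(∏ D) ^ 10 ≤ v ^ 10 2 ^ B (∏ D) ^ 10 ≤ (v X) ^ 10` gives `∏ D ≤ v X`. -/
def BAS_stmt : Prop := ∀ (B : ℕ) (v : ℝ), 0 ≤ v → 1 ≤ v ^ 10 * 2 ^ B → Up 28 B v ∧ Lo 28 B v

/-- **BTB** (short). From BAS: `chkB L` gives `1 ≤ v ^ 10 * 2 ^ i` for `v = dig L i / 2 ^ 40`, `i ≤ 900`. -/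
def BTB_stmt : Prop := ∀ L : ℕ, chkB L = true → TabOK 28 1 28 L L

/-- **BON** (medium). Bonferroni. Both sides are sums over `m ∈ A` with `p ∣ m (m + 6)` for `p ∈ D`,
`p ∤ m (m + 6)` for `p ∈ P`; for such an `m` let `γ q = 1` if `q ∣ m (m + 6)` and `0` otherwise, `q ∈ Q`.
The contribution of `m` to the inner sum is `∑_{T} ∏_{q ∈ T} γ q = es Q γ k`, to `S A (P ∪ Q) D` it is
`∏_{q ∈ Q} (1 - γ q)`. First half of `Pool.Agent.Lib.BrunHooley.bonferroni Q γ`. -/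
def BON_stmt : Prop := ∀ (A P Q D : Finset ℕ) (K : ℕ),
  0 ≤ (-1 : ℝ) ^ K * ((∑ k ∈ range (K + 1), (-1 : ℝ) ^ k *
    ∑ T ∈ powersetCard k Q, (S A P (D ∪ T) : ℝ)) - (S A (P ∪ Q) D : ℝ))

/-- **STP** (medium, long). One block. `Q = Bl h h'`, `Pr h' = Pr h ∪ Q` (as `h ≤ h'`), `V (Pr h') = V (Pr h) V Q`.
Let `D` be as in `Lo h' B`, `T ∈ powersetCard k Q`. The primes of `T` satisfy `2 ^ h ≤ q ^ 10 < 2 ^ h'`, those of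
`D` are `≥ 2 ^ (h' / 10)`: so `D`, `T` are disjoint, `g (D ∪ T) = g D g T`, and
`2 ^ (B - k h') (∏ (D ∪ T)) ^ 10 ≤ 2 ^ (B - k h') 2 ^ (k h') (∏ D) ^ 10 ≤ X ^ 10`. For `K` odd BON gives
`S A (Pr h') D ≥ ∑_{k ≤ K} (-1) ^ k ∑_T S A (Pr h) (D ∪ T)`
`≥ X g D V (Pr h) (∑_{k ≤ K} (-1) ^ k ek Q k - ∑_{k ≤ K} ek Q k v k)` (the lower bound for even `k`, the upper one
for odd `k`; `∑_T g T = ek Q k`), and `∑_{k ≤ K} (-1) ^ k ek Q k ≥ V Q - ek Q (K + 1)` by the second half of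
`Lib.BrunHooley.bonferroni` with `g = 2 / p`. `K` even: the same with the inequalities reversed
(`∑_{k ≤ K} (-1) ^ k ek Q k ≤ V Q + ek Q (K + 1)`). No sign of `v` is needed; `V Q > 0`. -/
def STP_stmt : Prop := ∀ (h h' B K : ℕ) (v : ℕ → ℝ), 28 ≤ h → h ≤ h' → K * h' ≤ B →
  (Odd K → (∀ k ≤ K, (Even k → Lo h (B - k * h') (v k)) ∧ (Odd k → Up h (B - k * h') (v k))) →
    Lo h' B ((∑ k ∈ range (K + 1), ek (Bl h h') k * v k + ek (Bl h h') (K + 1)) / V (Bl h h'))) ∧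
  (Even K → (∀ k ≤ K, (Even k → Up h (B - k * h') (v k)) ∧ (Odd k → Lo h (B - k * h') (v k))) →
    Up h' B ((∑ k ∈ range (K + 1), ek (Bl h h') k * v k + ek (Bl h h') (K + 1)) / V (Bl h h')))

/-- **EBD** (medium). `ek Q k ≤ (sig)^k / k!` is `Lib.BrunHooley.es_le_pow_div`. For `p ∈ Bl h h'`, `p ≥ 7` and
`p ^ 10 ≥ 2 ^ h0 ≥ (2 ^ (h0 / 10)) ^ 10`, so `p ≥ N := 2 ^ (h0 / 10)`. With `x = 2 / p ≤ 2 / 7`:
`1 - x ≥ exp (-(x + x ^ 2))` (because `exp (-t) ≤ 1 - t + t ^ 2 / 2` for `t ≥ 0` and `(x + x ^ 2) ^ 2 / 2 ≤ x ^ 2`),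
and `∑ (x + x ^ 2) = ∑ (2 / p) (1 + 2 / p) ≤ lam (1 + 2 / N)`. -/
def EBD_stmt : Prop := ∀ (h0 h h' : ℕ) (lam : ℝ), 28 ≤ h0 → h0 ≤ h → h ≤ h' → sig h h' ≤ lam →
  0 < V (Bl h h') ∧ (∀ k : ℕ, 0 ≤ ek (Bl h h') k ∧ ek (Bl h h') k ≤ lam ^ k / (k.factorial : ℝ)) ∧
    1 / V (Bl h h') ≤ Real.exp (lam * (1 + 2 / 2 ^ (h0 / 10)))

/-- **CKE** (medium). From EBD with `lam = l / 2 ^ 44`. Let `S = 2 ^ 44`, `x = l + 2 l / 2 ^ (h0 / 10) + 1`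
(natural division), so `x / S ≥ lam (1 + 2 / 2 ^ (h0 / 10))` and `x / S ≤ 1 / 2`. `Real.exp_bound` with `n = 5`:
`exp y ≤ 1 + y + y ^ 2 / 2 + y ^ 3 / 6 + y ^ 4 / 24 + y ^ 5 / 100`; multiply by `96 S ^ 5`. Then
`dig E (k + 1) (k + 1) S ≥ dig E k l` gives by induction `dig E k / S ≥ exp (x / S) lam ^ k / k!` for `k ≤ 10`.
(`frc n f = f n`, `allB n p = true ↔ ∀ i < n, p i = true`: prove these first.) -/
def CKE_stmt : Prop := ∀ l h0 h h' E : ℕ, 28 ≤ h0 → h0 ≤ h → h ≤ h' → sig h h' ≤ (l : ℝ) / 2 ^ 44 →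
  chkE l h0 E = true → EOK h h' E

/-- **GOS** (medium). What `go` checks. Induction on `f` (all other arguments general): at one step
`acc' = acc + dig E k * dig A i`; if `par` and `acc' + dig E (k + 1) 2 ^ 40 ≤ tgt` take `r = 0`; otherwise
`2 a ≤ i` and the recursive call at `(B, A, not par, k + 1, i - a, acc')` is true; it gives `r'`, take
`r = r' + 1`. (`1099511627776 = 2 ^ 40`.) -/
def GOS_stmt : Prop := ∀ (E a tgt f A B : ℕ) (par : Bool) (k i acc : ℕ), 1 ≤ a → a ≤ i →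
  go E a tgt f A B par k i acc = true →
  ∃ r < f, (par = true ↔ Even r) ∧ (r + 1) * a ≤ i ∧
    acc + ∑ j ∈ range (r + 1), dig E (k + j) * dig (if Even j then A else B) (i - j * a)
      + dig E (k + r + 1) * 2 ^ 40 ≤ tgt

/-- **STT** (medium, long). From MON, STP, GOS. Let `i ≤ 900`, `B = i u`, `Q = Bl h h'`, `h' = a u`. Lower table:
if `2 ^ 40 ≤ dig L' i` use `Lo h' B 1` and MON. Otherwise `2 a ≤ i` and `go E a (dig L' i 2 ^ 44) 10 L U false 0 i 0`;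
GOS gives an odd `r < 10` with `(r + 1) a ≤ i`. STP with `K = r`, `v k = dig (L or U) (i - k a) / 2 ^ 40`
(`B - k h' = (i - k a) u`; the index is `≥ a ≥ a0`): the value is
`≤ ∑_{k ≤ r} (dig E k / 2 ^ 44) v k + dig E (r + 1) / 2 ^ 44 ≤ dig L' i / 2 ^ 40` (`v k ≥ 0`; EOK for `k ≤ 10`).
Upper table (`a ≤ i`): the same with `par = true`, `r` even, `A = U`. (`17592186044416 = 2 ^ 44`; `V Q > 0`,
`0 ≤ ek Q k` are easy: products and sums of positive numbers.) -/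
def STT_stmt : Prop := ∀ h h' u a0 a L U L' U' E : ℕ, 28 ≤ h → h ≤ h' → h' = a * u → 1 ≤ a → a0 ≤ a →
  EOK h h' E → TabOK h u a0 L U → chkL E a L U L' = true → chkU E a L U U' = true → TabOK h' u a L' U'

/-- **CRS** (medium, short). From MON (`28 ≤ 60 u`). `i ≤ 450`: the old tables at the index `2 i`
(`(2 i) u = i (2 u)`; for the upper table `60 ≤ 2 i`). `450 < i`: `m = i / 30 ≥ 15`,
`m (60 u) ≤ i (2 u)`, and `600 / 3 ^ m ≤ dig L' i / 2 ^ 40` by the check. -/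
def CRS_stmt : Prop := ∀ u L U L' U' : ℕ, 1 ≤ u → TabOK (60 * u) u 60 L U → TailOK (60 * u) →
  chkC 0 L L' = true → chkC 30 U U' = true → TabOK (60 * u) (2 * u) 30 L' U'

/-- **TL0** (medium). `Pr 30 = {7}`, `V {7} = 5 / 7`. For `D` with `2 ^ 30 ≤ p ^ 10` (so `7 ∉ D`, `p ≥ 7`):
`S A {7} D = S A ∅ D - S A ∅ (D ∪ {7})`, `g (D ∪ {7}) = (2 / 7) g D`, so by Dens
`|S A {7} D - (5 / 7) X g D| ≤ 3 * 2 ^ |D| = 3 g D ∏ D`; the size condition with `B = 30 m` gives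
`∏ D ≤ X / 8 ^ m`, hence relative error `(21 / 5) / 8 ^ m ≤ 600 / 3 ^ m`. -/
def TL0_stmt : Prop := TailOK 30

/-- **TLS** (medium, long). From MON, STP, EBD. Let `m ≥ 15`, `B = m (60 u)`, `h = 30 u`, `h' = 60 u`. Put
`K = m - 1` or `m - 2`, odd for Lo and even for Up. For `k ≤ K` let `j = 2 (m - k) ≥ 2`: `B - k h' = j h`, and both
`Lo h (j h) (600 / 3 ^ j)` and `Up h (j h) (600 / 3 ^ j)` hold: by TailOK if `15 ≤ j`, by the tables at the index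
`30 j` and `chkT` if `j < 15`. So with `v k = 600 / 9 ^ (m - k)`, `ek ≤ (31/20) ^ k / k!`, `1 / V ≤ 5` the value of STP is
`≤ 5 (600 / 9 ^ m ∑_{k ≤ K} (9 * 31/20) ^ k / k! + (31/20) ^ (K + 1) / (K + 1)!)`. The sum is
`≤ exp 13.95 ≤ exp 14 ≤ 1203000` and `5 * 1203000 / 9 ^ m ≤ (1 / 2) / 3 ^ m` as `3 ^ 15 = 14348907`. The last term:
`K + 1 ≥ 14` and `K + 1 ∈ {m - 1, m}`; for `j ≥ 14`, `5 (31/20) ^ j / j! ≤ 300 / 3 ^ (j + 1)` (at `j = 14` the left side is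
`< 10 ^ (-7)`, the right side `> 10 ^ (-5)`; ratio `(31/20) / (j + 1) ≤ 1 / 3`). -/
def TLS_stmt : Prop := ∀ u L U : ℕ, 1 ≤ u → TabOK (30 * u) u 30 L U → chkT L = true → chkT U = true →
  TailOK (30 * u) → sig (30 * u) (60 * u) ≤ 31 / 20 → 1 / 5 ≤ V (Bl (30 * u) (60 * u)) → TailOK (60 * u)

/-- **VBD** (short). From EBD: `exp ((31/20) (1 + 2 / 64)) ≤ exp 1.6 ≤ 5` and `exp ((27/25) (1 + 2 / 8)) = exp 1.35 ≤ 5`. -/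
def VBD_stmt : Prop :=
  (∀ h h' : ℕ, 60 ≤ h → h ≤ h' → sig h h' ≤ 31 / 20 → 1 / 5 ≤ V (Bl h h')) ∧
    (sig 30 60 ≤ 27 / 25 → 1 / 5 ≤ V (Bl 30 60))

/-- **SAD** (short). `Pr` is monotone: `p ^ 10 < 2 ^ h ≤ 2 ^ h'` and `p < 2 ^ (h' / 10 + 1)`. A prime `p ≥ 7` lies in
`Bl h h'` iff `2 ^ h ≤ p ^ 10 < 2 ^ h'` (if `p ^ 10 < 2 ^ h` then `p < 2 ^ (h / 10 + 1)`). -/
def SAD_stmt : Prop :=
  (∀ h p : ℕ, p ∈ Pr h ↔ p.Prime ∧ 7 ≤ p ∧ p ^ 10 < 2 ^ h) ∧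
  (∀ h h' p : ℕ, p ∈ Bl h h' ↔ p.Prime ∧ 7 ≤ p ∧ 2 ^ h ≤ p ^ 10 ∧ p ^ 10 < 2 ^ h') ∧
  (∀ h h' : ℕ, h ≤ h' → V (Pr h') = V (Pr h) * V (Bl h h')) ∧
  (∀ h h' h'' : ℕ, h ≤ h' → h' ≤ h'' → sig h h'' = sig h h' + sig h' h'') ∧
  (∀ h h' : ℕ, 0 < V (Pr h) ∧ 0 < V (Bl h h') ∧ 0 ≤ sig h h') ∧ V (Pr 30) = 5 / 7

/-- **VCH** (short). From SAD: `ek Q 0 = 1`, so `1 / V (Bl h h') ≤ dig E 0 / 2 ^ 44`, `V (Pr h') = V (Pr h) V (Bl h h')`. -/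
def VCH_stmt : Prop := ∀ c h c' h' E : ℕ, 28 ≤ h → h ≤ h' → EOK h h' E → chkV c h c' h' E = true →
  (c : ℝ) / 1000 ≤ V (Pr h) * (h : ℝ) ^ 2 → (c' : ℝ) / 1000 ≤ V (Pr h') * (h' : ℝ) ^ 2

/-! ## Part B: primes -/

/-- **DAT** (medium). From SAD. Meaning of `sumI M s f n acc = true`:
`acc + ∑_{n ≤ j < n + f, gcd (j, M) = 1} (2 ^ 45 / j + 1) ≤ s` (induction on `f`). A prime `p ∈ Bl h (h + 1)` has
`(lo - 1) ^ 10 < 2 ^ h ≤ p ^ 10`, so `lo ≤ p`; `p ^ 10 < 2 ^ (h + 1) ≤ hi ^ 10`, so `p < hi`; and it is coprime to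
`(min (lo - 1) 511)!` because `p > lo - 1` (`Nat.Prime.dvd_factorial`). And
`2 / p ≤ (2 ^ 45 / p + 1) / 2 ^ 44` (natural division inside). (`35184372088832 = 2 ^ 45`.) -/
def DAT_stmt : Prop := ∀ h lo hi s : ℕ, 28 ≤ h → chkD h lo hi s = true → sig h (h + 1) ≤ (s : ℝ) / 2 ^ 44

/-- **ABL** (medium). Abel summation. Induction on `F` (`Finset.induction_on_max`) of the stronger statement for a
nonempty `F` with largest element `M`, `C = ∑_{j ∈ F} c j`: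
`∑_{i ∈ F} c i G (x i) + (α (x M - ζ) + κ - C) G (x M) ≤ κ G ζ + α ∫_ζ^(x M) G`.
One element: the left side is `(α (x M - ζ) + κ) G (x M)` and `G (x M) ≤ G s` for `s ≤ x M`. Adding an element
`M' > M` (`x M < x M'`): the left side for `insert M' F` is
`∑_{i ∈ F} c i G (x i) + (α (x M - ζ) + κ - C) G (x M') + α (x M' - x M) G (x M')`; the second coefficient is
`≥ 0` by hypothesis at `i = M`, so replace `G (x M')` by `G (x M)` there, and the last term is `≤ α ∫_(x M)^(x M') G`.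
At the end drop the nonnegative term and enlarge the integral. Integrability: `AntitoneOn.intervalIntegrable`. -/
def ABL_stmt : Prop := ∀ (F : Finset ℕ) (x c : ℕ → ℝ) (ζ Z α κ : ℝ) (G : ℝ → ℝ),
  ζ ≤ Z → 0 ≤ α → 0 ≤ κ → StrictMonoOn x (F : Set ℕ) → (∀ i ∈ F, ζ ≤ x i ∧ x i ≤ Z) →
  AntitoneOn G (Set.Icc ζ Z) → (∀ s ∈ Set.Icc ζ Z, 0 ≤ G s) →
  (∀ i ∈ F, ∑ j ∈ F.filter (fun j => j ≤ i), c j ≤ α * (x i - ζ) + κ) →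
  ∑ i ∈ F, c i * G (x i) ≤ α * (∫ s in ζ..Z, G s) + κ * G ζ

/-- **CH1** (medium). Chebyshev. `log N! = ∑_{d ≤ N} Λ(d) ⌊N / d⌋` is proved in
Pool/Agent/helper22/PD/Mertens.lean (`log_factorial_eq`; copy it). As `(N / 2) / d = (N / d) / 2` etc.,
`FC N = ∑_{d ≤ N} Λ(d) E (N / d)` with `E t = t - t / 2 - t / 3 - t / 5 + t / 30` (natural divisions, an integer). Write
`t = 30 s + r`: `E t` depends only on `r < 30`, and by inspection `E t ∈ {0, 1}`, `E t = 1` for `t = 1, …, 5, 7, 8, 9`.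
`d ≤ N / k ↔ k ≤ N / d`. -/
def CH1_stmt : Prop := ∀ N : ℕ, FC N ≤ Chebyshev.psi N ∧
  Chebyshev.psi N - Chebyshev.psi ((N / 6 : ℕ) : ℝ) ≤ FC N ∧
  Chebyshev.psi N - Chebyshev.psi ((N / 6 : ℕ) : ℝ) + Chebyshev.psi ((N / 7 : ℕ) : ℝ)
    - Chebyshev.psi ((N / 10 : ℕ) : ℝ) ≤ FC N

/-- **CH2** (short). Lower bound: `Stirling.le_log_factorial_stirling` and `log (2 π) / 2 ≥ 9 / 10`
(`2 π ≥ 6.28 ≥ exp 1.8`). Upper bound: `Stirling.stirlingSeq'_antitone` gives `stirlingSeq N ≤ stirlingSeq 1 =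
exp 1 / √2`, and `Stirling.log_stirlingSeq_formula`. -/
def CH2_stmt : Prop := ∀ N : ℕ, 1 ≤ N →
  (N : ℝ) * Real.log N - N + 1 / 2 * Real.log N + 9 / 10 ≤ Real.log (N.factorial : ℝ) ∧
  Real.log (N.factorial : ℝ) ≤ (N : ℝ) * Real.log N - N + 1 / 2 * Real.log N + 1

/-- **CHA** (short). `A = 0.921292…`. -/
def CHA_stmt : Prop :=
  0.9212 ≤ 14 / 30 * Real.log 2 + 9 / 30 * Real.log 3 + 5 / 30 * Real.log 5 ∧
  14 / 30 * Real.log 2 + 9 / 30 * Real.log 3 + 5 / 30 * Real.log 5 ≤ 0.9213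

/-- **CH3** (medium). From CH2, CHA. Let `φ s = s log s - s` (increasing for `s ≥ 1`), `T s = log ⌊s⌋!`. For `s ≥ 1`
and `N = ⌊s⌋`: `T s ≤ φ N + (1/2) log N + 1 ≤ φ s + (1/2) log s + 1`; and
`T s = log (N + 1)! - log (N + 1) ≥ φ (N + 1) - (1/2) log (N + 1) + 0.9 ≥ φ s - (1/2) log s + 0.55`
(`N + 1 ≤ 2 s`). `⌊x⌋ / k = ⌊x / k⌋` (`Nat.floor_div_natCast`), all arguments are `≥ 1`. Finally
`φ x - φ (x/2) - φ (x/3) - φ (x/5) + φ (x/30) = A x`, and `(1/2) log 900 ≥ 1.9`. -/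
def CH3_stmt : Prop := ∀ x : ℝ, 30 ≤ x →
  0.9212 * x - 5 / 2 * Real.log x ≤ FC ⌊x⌋₊ ∧ FC ⌊x⌋₊ ≤ 0.9213 * x + 5 / 2 * Real.log x

/-- **CH4** (medium). From CH1, CH3. `1 ≤ x < 30`: `ψ x ≤ ψ 29 ≤ π(29) log 29 ≤ 34 ≤ 50`
(`Chebyshev.psi_le_primeCounting_mul_log`, `π(29) = 10`). `x ≥ 30`: strong induction on `⌊x⌋`;
`ψ x = ψ ⌊x⌋ ≤ FC ⌊x⌋ + ψ (x / 6) ≤ 0.9213 x + 2.5 log x + [the bound at x / 6]`, where
`0.9213 + 1.1056 / 6 ≤ 1.1056` and, with `l = log x`, `s = log 6 ∈ [1.79, 1.80]`: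
`2.5 l + 0.7 (l - s) ^ 2 + 3 (l - s) ≤ 0.7 l ^ 2 + 3 l` since `1.4 s ≥ 2.5` and `0.7 s ^ 2 ≤ 3 s`. -/
def CH4_stmt : Prop := ∀ x : ℝ, 1 ≤ x →
  Chebyshev.psi x ≤ 1.1056 * x + 0.7 * Real.log x ^ 2 + 3 * Real.log x + 50

/-- **CH5** (medium). From CH1, CH3, CH4. `ψ x ≤ FC ⌊x⌋ + ψ (x / 6) + ψ (x / 10) - ψ (x / 7)`,
`ψ (x / 7) ≥ FC ⌊x / 7⌋ ≥ 0.9212 x / 7 - 2.5 log (x / 7)` (`x / 7 ≥ 30`), CH4 for `x / 6`, `x / 10`; bounding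
logarithms of `x / k` by `log x`: `ψ x ≤ (0.9213 - 0.1316 + 1.1056 * 4 / 15) x + 1.4 log² x + 11 log x + 100`. The
coefficient is `≤ 1.08453`, and `1.4 log² x + 11 log x + 100 ≤ 0.00247 x` for `x ≥ 2 ^ 18` (`log 2 ^ 18 ≤ 12.477`: left
`≤ 456`, right `≥ 647`; `log² x / x` and `log x / x` decrease; or `log x ≤ 12.477 + (x / 2 ^ 18 - 1)`). -/
def CH5_stmt : Prop := ∀ x : ℝ, 2 ^ 18 ≤ x → Chebyshev.psi x ≤ 1087 / 1000 * x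

/-- **CH6** (medium). From CH1, CH3, CH4. `ψ x ≥ FC ⌊x⌋ ≥ 0.9212 x - 2.5 log x`, and
`Chebyshev.psi_sub_theta_le_psi_add_psi_add_psi`: `ψ x - θ x ≤ ψ (x^(1/2)) + ψ (x^(1/3)) + ψ (x^(1/5))`. At `x = 2 ^ 18`
the last sum is `≤ 883` by CH4 and `2.5 log x ≤ 32`, while `0.004 x = 1048`; all terms divided by `x` decrease. -/
def CH6_stmt : Prop := ∀ x : ℝ, 2 ^ 18 ≤ x → 0.9172 * x ≤ Chebyshev.theta x

/-- **LPA** (medium). From ABL, CH5, CH6. ABL with `F = pc w t`, `x p = p`, `c p = log p`, `G s = 1 / s`, `ζ = w`, `Z = t`,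
`α = 1087/1000`, `κ = (170/1000) w`: for `i ∈ F` the sum of `log p` over `w ≤ p ≤ i` is
`θ i - ∑_{p < w} log p`, and `∑_{p < w} log p ≥ θ w - log w ≥ 0.9172 w - log w ≥ 0.917 w`; so it is
`≤ 1.087 i - 0.917 w = 1.087 (i - w) + 0.17 w`. -/
def LPA_stmt : Prop := LP (1087 / 1000) (170 / 1000)

/-- **LPM** (medium). From CH2, CH5. Let `M x = ∑_{n ≤ x} Λ(n) / n`, `T x = log ⌊x⌋!`. From `T x = ∑_{n ≤ x} Λ(n) ⌊x / n⌋`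
(copy `log_factorial_eq` of helper22/PD/Mertens.lean; `⌊⌊x⌋ / n⌋ = ⌊x / n⌋`): `T x ≤ x M x ≤ T x + ψ x`. With the
bounds for `T` in the docstring of CH3: `M t ≤ log t - 1 + (log t / 2 + 1) / t + 1.087`,
`M w ≥ log w - 1 - (log w / 2) / w`, `∑_{n < w} Λ(n)/n ≥ M w - log w / w`. The sum in question is
`≤ ∑_{w ≤ n ≤ t} Λ(n) / n ≤ log (t / w) + 1.087 + (log t / 2 + 1) / t + 1.5 log w / w ≤ log (t / w) + 1.09`. -/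
def LPM_stmt : Prop := LP 1 (1090 / 1000)

/-- **SIG** (medium). From SAD, ABL. ABL with `F = Bl h h'`, `x p = log p`, `c p = log p / p`, `G s = 1 / s`,
`ζ = h δ`, `Z = h' δ` (`δ = log 2 / 10`, `ζ > 0`); for `i ∈ F` the partial sum is at most the sum over `pc w i` with
`w = exp (h δ) ≥ 2 ^ 18`. `∫ 1 / s = log (h' / h)`, `1 / ζ = 10 / (h log 2) ≤ 14.4269505 / h`. -/
def SIG_stmt : Prop := ∀ α κ : ℝ, 0 ≤ α → 0 ≤ κ → LP α κ → ∀ h h' : ℕ, 180 ≤ h → h ≤ h' →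
  sig h h' ≤ 2 * (α * Real.log ((h' : ℝ) / h) + κ * (14.4269505 / h))

/-- **DIR** (medium). From SAD, ABL as SIG, with `G s = 1 / s - 1 / Z`, `Z = H δ`:
`(log p / p) G (log p) = (1 / p) (1 - log p / (H δ))`, `∫_ζ^Z G = log (H / h) - 1 + h / H`,
`G ζ = (1 - h / H) / (h δ)`. -/
def DIR_stmt : Prop := ∀ α κ : ℝ, 0 ≤ α → 0 ≤ κ → LP α κ → ∀ h H : ℕ, 180 ≤ h → h ≤ H →
  ∑ p ∈ Bl h H, 1 / (p : ℝ) * (1 - Real.log p / (H * (Real.log 2 / 10))) ≤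
    α * (Real.log ((H : ℝ) / h) - 1 + (h : ℝ) / H) + κ * (1 - (h : ℝ) / H) * (14.4269505 / h)

/-- **LGQ** (short). `(10 + q) / (9 + q) ≤ exp (LG q / 10 ^ 9)` by a partial sum of the exponential series
(`Real.sum_le_exp_of_nonneg`, 8 terms) for `q = 1, …, 10`. -/
def LGQ_stmt : Prop := ∀ q : ℕ, 1 ≤ q → q ≤ 10 →
  Real.log (((10 : ℝ) + q) / (9 + q)) ≤ (LG q : ℝ) / 10 ^ 9

/-- **ELL** (short). From SIG, LPA, LPM, LGQ: `h' / h = (10 + q) / (9 + q)`, `1 / h ≤ 1 / h0`; the two cases of `chkEll`. -/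
def ELL_stmt : Prop := ∀ q h0 h h' l : ℕ, 1 ≤ q → q ≤ 10 → 180 ≤ h0 → h0 ≤ h →
  h' * (9 + q) = h * (10 + q) → chkEll q h0 l = true → sig h h' ≤ (l : ℝ) / 2 ^ 44

/-- **VIN** (medium). From SAD, SIG, LPM. `sig 7680 h ≤ 2 log (h / 7680) + 0.0041`;
`V (Bl 7680 h) ≥ exp (-∑ (x + x ^ 2))`, `x = 2 / p` (see EBD), `∑ x ^ 2 ≤ 4 ∑_{n ≥ 2 ^ 768} 1 / n ^ 2 ≤ 0.0001`. Hence
`V (Pr h) h ^ 2 ≥ 291 exp (-0.0042) ≥ 280`. -/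
def VIN_stmt : Prop := 291 ≤ V (Pr 7680) * (7680 : ℝ) ^ 2 → ∀ h : ℕ, 7680 ≤ h →
  280 ≤ V (Pr h) * (h : ℝ) ^ 2

/-! ## Part C: the application -/

/-- **DEN** (medium). For a prime `p ≥ 7`: `p ∣ m (m + 6) ↔ m % p ∈ {0, p - 6}`, two residues.
`Pool.Agent.Lib.BrunHooley.card_residues_approx (n ^ 3) (3 n ^ 2 + 3 n - 6) C D` with `m = 30`, `v = 1`. -/
def DEN_stmt : Prop := ∀ n : ℕ, 2 ≤ n → Dens (An n) (Xn n)

/-- **XSZ** (short). `Xn n = (n + 2) (n - 1) / 10 = (y + 1) (y - 2) / 10`, `y = n + 1 ≥ 129`, so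
`Xn n ≥ 0.0992 y ^ 2`, and `0.0992 ^ 10 * 2 ^ 34 ≥ 1`. -/
def XSZ_stmt : Prop := ∀ n : ℕ, 128 ≤ n → (n : ℝ) ^ 2 / 10 ≤ Xn n ∧
  0.0992 * ((n : ℝ) + 1) ^ 2 ≤ Xn n ∧ ((n : ℝ) + 1) ^ 20 ≤ 2 ^ 34 * Xn n ^ 10

/-- **OMG** (medium, long). Let `y = n + 1`, `m ∈ Gd n h`, so `m < y ^ 3`, `m + 6 < y ^ 3`, and `m % 30 = 1`,
`(m + 6) % 30 = 7`. A prime factor `p` of `m (m + 6)` is `≥ 7`, not in `Pr h`, hence `2 ^ h ≤ p ^ 10`; it divides only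
one of `m`, `m + 6`; if `p ≤ n` it is in `Rg n h` and divides that number exactly once. With `k = m` or `m + 6`:
`Ω(k) - log k / log y = ∑_p v_p(k) (1 - log p / log y) ≤ ∑_{p ∣ k, p ≤ n} (1 - log p / log y)` since the terms with
`p ≥ y` are `≤ 0`. The two sums (for `m` and `m + 6`) have nonnegative terms and add up to `Wt n h m < 2`. So
`Ω(k) < 2 + 3` and `Ω(m) + Ω(m + 6) < 2 + 6`. (`cardFactors` is the number of prime factors with multiplicity: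
`cardFactors_eq_sum_factorization`; `log k = ∑ v_p(k) log p`.) -/
def OMG_stmt : Prop := ∀ n h m : ℕ, 2 ≤ n → 28 ≤ h → m ∈ Gd n h →
  cardFactors m ≤ 4 ∧ cardFactors (m + 6) ≤ 4 ∧ cardFactors m + cardFactors (m + 6) ≤ 7

/-- **CNT** (medium). Let `F` be the set counted by `S (An n) (Pr h) ∅`. `0 ≤ wt n p` for `p ≤ n`. For `m ∈ F` put
`χ m = 1 - Wt n h m / 2 ≤ 1`. `∑_{m ∈ F} χ m = S - (1/2) ∑_{p ∈ Rg} wt n p S (An n) (Pr h) {p}` (interchange). If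
`m ∈ F` is not in `Gd n h` then it is in one of the sets of the last sum, or `Wt n h m ≥ 2` and `χ m ≤ 0`. -/
def CNT_stmt : Prop := ∀ n h : ℕ, 2 ≤ n → 28 ≤ h →
  (S (An n) (Pr h) ∅ : ℝ) - 1 / 2 * ∑ p ∈ Rg n h, wt n p * (S (An n) (Pr h) {p} : ℝ)
    - ∑ p ∈ Rg n h, ((((An n).filter fun m => p ^ 2 ∣ m ∨ p ^ 2 ∣ m + 6).card : ℕ) : ℝ)
    ≤ ((Gd n h).card : ℝ)

/-- **SQB** (short, medium). `m % 30 = 1` and `p ^ 2 ∣ m` is one residue class modulo `30 p ^ 2` (Chinese remainder;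
`p ≥ 7`), the same for `p ^ 2 ∣ m + 6`; `Pool.Agent.Lib.BrunHooley.card_modEq_approx`. -/
def SQB_stmt : Prop := ∀ n p : ℕ, 2 ≤ n → p.Prime → 7 ≤ p →
  ((((An n).filter fun m => p ^ 2 ∣ m ∨ p ^ 2 ∣ m + 6).card : ℕ) : ℝ) ≤ 2 * (Xn n / (p : ℝ) ^ 2 + 1)

/-- **PC1** (long). From MON, SAD, DEN, XSZ, CNT, SQB. Write `y = n + 1`, `X = Xn n`, `P = Pr (a u)`.
(1) `2 ^ ((2 Y - κ) u) ≤ X ^ 10`, because `2 ^ (2 Y u) ≤ y ^ 20 ≤ 2 ^ 34 X ^ 10 ≤ 2 ^ (κ u) X ^ 10`.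
(2) Lower table at the index `2 Y - κ ≤ 900`, `D = ∅`: `S (An n) P ∅ ≥ X V P (1 - v0)`.
(3) For `p ∈ Rg n (a u)` let `b` be the largest with `2 ^ (b u) ≤ p ^ 10`: `a ≤ b ≤ Y` as `p < y`. BlkOK gives
`t ∈ bl` with `t.1 ≤ b < t.2.1`, and `a ≤ t.1` (otherwise `t.2.1 ≤ a`), `t.1 ≤ Y`; so
`2 ^ (t.1 u) ≤ p ^ 10 < 2 ^ (t.2.1 u)`. Upper table at the index `2 Y - κ - t.2.1 ≥ a`, `D = {p}`:
`S (An n) P {p} ≤ X (2 / p) V P (1 + v_t)`, `v_t = dig U (2 Y - κ - t.2.1) / 2 ^ 40`.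
(4) `0 ≤ wt n p ≤ 1 - t.1 / (Y + 1)` since `log p ≥ t.1 u δ`, `log y ≤ (Y + 1) u δ`.
(5) So `(1/2) ∑ wt S {p} ≤ X V P (∑ wt / p + ∑_p (wt / p) v_{t(p)})`, and the last sum is `≤ M2 U a Y κ bl`: it is at most the
sum over `t ∈ bl` with `a ≤ t.1 ≤ Y` of `v_t (1 - t.1 / (Y + 1)) ∑_{p ∈ Bl (t.1 u) (t.2.1 u)} 1 / p`, and the inner sum is
`sig / 2 ≤ t.2.2 / 2 ^ 45`.
(6) The last sum of CNT is `≤ 2 X ∑ 1 / p ^ 2 + 2 n` by SQB (`p ∈ Rg` is `≥ 7`, there are at most `n` of them). -/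
def PC1_stmt : Prop := ∀ (u a Y κ L U n : ℕ) (bl : List (ℕ × ℕ × ℕ)),
  1 ≤ u → 30 ≤ a → a ≤ Y → Y < 300 → 34 ≤ κ * u → κ ≤ 2 * Y → 128 ≤ n →
  2 ^ (Y * u) < (n + 1) ^ 10 → (n + 1) ^ 10 ≤ 2 ^ ((Y + 1) * u) →
  TabOK (a * u) u a L U → BlkOK u a bl →
  (∀ t ∈ bl, a ≤ t.1 → t.1 ≤ Y → t.2.1 + a + κ ≤ 2 * Y) →
  Xn n * V (Pr (a * u)) * (1 - (dig L (2 * Y - κ) : ℝ) / 2 ^ 40
      - ∑ p ∈ Rg n (a * u), 1 / (p : ℝ) * wt n p - M2 U a Y κ bl)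
    - 2 * Xn n * ∑ p ∈ Rg n (a * u), 1 / (p : ℝ) ^ 2 - 2 * n ≤ ((Gd n (a * u)).card : ℝ)

/-- **PCM** (medium). Meaning of the sums in the checks: `sumF f k l acc = k (acc + ∑_{x ∈ l} f x)` and
`sumR f k n h acc = k (acc + ∑_{j < n} f (h + j))`. If the total `∑ tm` is `< 2 ^ 60` then no term is the
exceptional value, and by `cdiv a b ≥ a / b` each term is at least `2 ^ 44` times the term of `M2`. The third part: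
`chkLam` says `num / den ≤ ∑_{k ≤ 14} (lam / 10 ^ 9) ^ k / k! ≤ exp (lam / 10 ^ 9)` (`0 < den`, `0 < num`). -/
def PCM_stmt : Prop :=
  (∀ (α : Type) (f : α → ℕ) (k : ℕ → Bool) (l : List α) (acc : ℕ),
    sumF f k l acc = k (acc + (l.map f).sum)) ∧
  (∀ (f : ℕ → ℕ) (k : ℕ → Bool) (n h acc : ℕ),
    sumR f k n h acc = k (acc + ∑ j ∈ range n, f (h + j))) ∧
  (∀ (U a Y κ : ℕ) (bl : List (ℕ × ℕ × ℕ)), (bl.map (tm U a Y κ)).sum < 2 ^ 60 →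
    (∀ t ∈ bl, a ≤ t.1 → t.1 ≤ Y → t.2.1 + a + κ ≤ 2 * Y) ∧
    2 ^ 44 * M2 U a Y κ bl ≤ (((bl.map (tm U a Y κ)).sum : ℕ) : ℝ)) ∧
  ∀ num den lam : ℕ, 0 < num → 0 < den → chkLam num den lam = true →
    Real.log ((num : ℝ) / den) ≤ (lam : ℝ) / 10 ^ 9

/-- **PC2** (medium, long). From PC1, PCM, SAD, DIR, LPA, LPM, XSZ. Let `h = a u ≥ 240`, `q = (Y + 1) / a`. `Rg n h ⊆ Bl h ((Y + 1) u)`
and `wt n p ≤ 1 - log p / ((Y + 1) u δ)` (`log (n + 1) ≤ (Y + 1) u δ`), so DIR bounds `∑ wt / p` by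
`α (log q - 1 + 1 / q) + κ' (1 - 1 / q) 14.4269505 / h` for both pairs `(α, κ')`; by PCM and `u0 ≤ u` this is
`≤ dir1 / 10 ^ 12` resp. `≤ dir2 / 10 ^ 12` (arguments of `chkHi`; a truncated subtraction only increases). So the check
gives `v0 + ∑ wt / p + M2 ≤ 0.975 - 0.0001`. Squares: `p ≥ N = 2 ^ (h / 10)`, `∑_{n ≥ N} 1 / n ^ 2 ≤ 1 / (N - 1)`,
`2 / V ≤ 2 h ^ 2 / 280`, and `2 h ^ 2 / (280 (N - 1)) ≤ 0.00005` for `h ≥ 240` (at `240`: `0.0000246`).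
`2 n / (X V) ≤ 20 h ^ 2 / (280 n) ≤ 0.00005`, as `n + 1 > 2 ^ (15 u)`, `h ≤ 57 u`, `u ≥ 8`. -/
def PC2_stmt : Prop := ∀ (u0 u a Y κ lam L U n : ℕ) (bl : List (ℕ × ℕ × ℕ)),
  8 ≤ u0 → u0 ≤ u → 30 ≤ a → a ≤ 57 → 150 ≤ Y → Y < 300 → 34 ≤ κ * u → κ ≤ 34 → 128 ≤ n →
  2 ^ (Y * u) < (n + 1) ^ 10 → (n + 1) ^ 10 ≤ 2 ^ ((Y + 1) * u) →
  TabOK (a * u) u a L U → BlkOK u a bl → 280 ≤ V (Pr (a * u)) * ((a * u : ℕ) : ℝ) ^ 2 →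
  chkHi u0 a Y κ lam bl L U = true → Xn n * V (Pr (a * u)) / 40 ≤ ((Gd n (a * u)).card : ℝ)

/-- **PC3** (long). From PC1, PCM, SAD, DIR, LPA, LPM, XSZ. Let `h = a u`, `H = (Y + 1) u`, `hx = max h 180`. As in PC2
`Rg n h ⊆ Bl h H`. Split the primes of `Rg n h` into the `Bl j (j + 1)`, `h ≤ j < min 180 H`, and (if `H > 180`) the part
in `Bl hx H`. In `Bl j (j + 1)`: `wt n p ≤ (H - j) / H`, `∑ 1 / p ≤ dig LSN (j - 28) / 2 ^ 45`, `1 / p ≤ 1 / 2 ^ (j / 10)`. The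
other part: DIR for `∑ wt / p`, and `∑ 1 / p ^ 2 ≤ ∑_{n ≥ 2 ^ 18} 1 / n ^ 2 ≤ 2 / 2 ^ 18`. `2 / V ≤ 2 h ^ 2 / kv`. Last term:
`2 n / (X V) ≤ 2 y / (0.0992 y ^ 2 V) ≤ 20.4 h ^ 2 / (kv 2 ^ (Y u / 10))` as `y = n + 1 > 2 ^ (Y u / 10)` (natural division). The
check says that `v0 + ∑ wt / p + M2 + (2 / V) ∑ 1 / p ^ 2 + 2 n / (X V) ≤ T / 1000`. -/
def PC3_stmt : Prop := ∀ (T u a Y κ kv lam L U n LSN : ℕ) (bl : List (ℕ × ℕ × ℕ)),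
  (u = 1 ∨ u = 2 ∨ u = 4) → 30 ≤ a → a ≤ 57 → 70 ≤ Y → Y < 300 → a ≤ Y → 34 ≤ κ * u → κ ≤ 34 → 128 ≤ n →
  2 ^ (Y * u) < (n + 1) ^ 10 → (n + 1) ^ 10 ≤ 2 ^ ((Y + 1) * u) →
  TabOK (a * u) u a L U → BlkOK u a bl → 1 ≤ kv → (kv : ℝ) ≤ V (Pr (a * u)) * ((a * u : ℕ) : ℝ) ^ 2 →
  (∀ h, 28 ≤ h → h < 180 → sig h (h + 1) ≤ (dig LSN (h - 28) : ℝ) / 2 ^ 44) → T ≤ 1000 →
  chkLo T u a Y κ kv lam bl LSN L U = true →
  Xn n * V (Pr (a * u)) * (1 - (T : ℝ) / 1000) ≤ ((Gd n (a * u)).card : ℝ)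

/-- **CTB** (medium). From XSZ, SAD. `X ≥ n ^ 2 / 10`, `y = n + 1`. (1) `h = a 2 ^ o ≤ Y 2 ^ o / 5`, `log y > Y 2 ^ o δ`, so
`h ≤ 2.8854 log y`, `h ^ 2 ≤ 8.3256 log² y` and `X V / 40 ≥ 0.7 n ^ 2 / h ^ 2 ≥ 0.084 n ^ 2 / log² y ≥ n ^ 2 / (20 log² n)` as
`n + 1 > 2 ^ 30`; and `0.084 n / log² y ≥ 1`. (2) `X V / 20 ≥ 0.00114 n ^ 2`, `n + 1 > 2 ^ 15`, `log n ≥ 10.3`.
(3) `V = 5 / 7`: `0.15 X V ≥ 0.0107 n ^ 2`, `log n ≥ 4.85`. -/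
def CTB_stmt : Prop :=
  (∀ n o a Y : ℕ, 128 ≤ n → 1 ≤ o → 150 ≤ Y → 5 * a ≤ Y → 30 ≤ a → 2 ^ (Y * 2 ^ o) < (n + 1) ^ 10 →
    280 ≤ V (Pr (a * 2 ^ o)) * ((a * 2 ^ o : ℕ) : ℝ) ^ 2 →
    (n : ℝ) ≤ Xn n * V (Pr (a * 2 ^ o)) / 40 ∧
      (n : ℝ) ^ 2 / (20 * Real.log n ^ 2) ≤ Xn n * V (Pr (a * 2 ^ o)) / 40) ∧
  (∀ n Y : ℕ, 128 ≤ n → 150 ≤ Y → 2 ^ Y < (n + 1) ^ 10 → 744 ≤ V (Pr 57) * (57 : ℝ) ^ 2 →
    (n : ℝ) ≤ Xn n * V (Pr 57) / 20 ∧ (n : ℝ) ^ 2 / (20 * Real.log n ^ 2) ≤ Xn n * V (Pr 57) / 20) ∧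
  ∀ n : ℕ, 128 ≤ n →
    (n : ℝ) ≤ Xn n * V (Pr 30) * (15 / 100) ∧
      (n : ℝ) ^ 2 / (20 * Real.log n ^ 2) ≤ Xn n * V (Pr 30) * (15 / 100)

/-- **SUB** (medium). From OMG. `m ∈ An n` gives `n ^ 3 < m`, `m + 6 < (n + 1) ^ 3`. The numbers `m + 1, …, m + 5` are
`2, 3, 4, 5, 6` modulo `30`, divisible by `2` or `3` or `5` and larger than `5`. A prime factor `p` of `m (m + 6)` is `≥ 7`,
not in `Pr h`, so `2 ^ h ≤ p ^ 10`, `(n + 1) ^ 20 ≤ 2 ^ (11 h) ≤ p ^ 110`, `n ^ 2 < (n + 1) ^ 2 ≤ p ^ 11`. -/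
def SUB_stmt : Prop := ∀ n h : ℕ, 128 ≤ n → 28 ≤ h → (n + 1) ^ 20 ≤ 2 ^ (11 * h) → Gd n h ⊆ Tset n

/-- **EXO** (short). Let `β` be the natural number with `2 ^ β < (n + 1) ^ 10 ≤ 2 ^ (β + 1)`; `β ≥ 70` as `n + 1 > 2 ^ 7`. If
`β ≥ 150` let `o` be the largest with `150 2 ^ o ≤ β`, `Y = β / 2 ^ o`. -/
def EXO_stmt : Prop := ∀ n : ℕ, 128 ≤ n →
  (∃ Y, 70 ≤ Y ∧ Y < 150 ∧ 2 ^ Y < (n + 1) ^ 10 ∧ (n + 1) ^ 10 ≤ 2 ^ (Y + 1)) ∨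
  ∃ o Y, 150 ≤ Y ∧ Y < 300 ∧ 2 ^ (Y * 2 ^ o) < (n + 1) ^ 10 ∧ (n + 1) ^ 10 ≤ 2 ^ ((Y + 1) * 2 ^ o)

/-- **SML** (medium). Small `n`. Let `Q` be the product of the primes `≤ k`, `q` the next prime, `(n + 1) ^ 3 ≤ q ^ 4`. If
`gcd (m (m + 6), Q) = 1` then all prime factors of `m` and `m + 6` are `≥ q`, so both have at most three of them
(`m, m + 6 < q ^ 4`); for `7 ≤ q` also `n ^ 2 < p ^ 11`. If each of `m + 1, …, m + 5` (all `> 7`) has a common factor with `210`, none is prime.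
Take `(k, q) = (5, 7)` for `n ≤ 12`, `(7, 11)` for `n ≤ 23`, `(11, 13)` for `n ≤ 29`, `(13, 17)` for `n ≤ 42`, `(17, 19)` for
`n ≤ 49`, `(19, 23)` for `n ≤ 64`, `(23, 29)` for `n ≤ 88`, `(29, 31)` for `n ≤ 96`, `(31, 37)` for `n ≤ 122`, `(37, 41)` for
`n ≤ 127`. Count such `m` with `m % 30 = 1` or `23` (for `n ≥ 5` there are at least `n`; for `n = 3` take
`31, 47, 53`, for `n = 4` take `73, 83, 91, 113`) by a kernel computation (`decide +kernel` with a function written with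
`Nat.rec`, `frc`; it may stop as soon as `n` of them are found). Second part: `log n ≥ 1.09`; `n ≤ 20 log² n` for
`3 ≤ n ≤ 127` (for `n ≥ 24` use `log n ≥ 3`). -/
def SML_stmt : Prop := ∀ n : ℕ, 3 ≤ n → n ≤ 127 →
  n ≤ (Tset n).card ∧ (n : ℝ) ^ 2 / (20 * Real.log n ^ 2) ≤ n

end Pool.Agent.SX
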