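import Pool.Agent.helper79.SX.AsmA

/-! # Project sx: assembly, part 2 (the pieces) -/

set_option autoImplicit false

open Finset ArithmeticFunction

namespace Pool.Agent.SX

lemma VCHN_step (hVCH : VCH_stmt) (hSAD : SAD_stmt) (hDAT : DAT_stmt) (hELL : ELL_stmt) (hCKE : CKE_stmt)
    (o : ℕ) (ho : o < 8)
    (h0 : (dig VTN (10 * o) : ℝ) / 1000 ≤ V (Pr (30 * 2 ^ o)) * ((30 * 2 ^ o : ℕ) : ℝ) ^ 2) (q : ℕ) (hq : q ≤ 10) :
    (dig VTN (10 * o + q) : ℝ) / 1000 ≤
      V (Pr ((30 + 3 * q) * 2 ^ o)) * (((30 + 3 * q) * 2 ^ o : ℕ) : ℝ) ^ 2 := by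
  induction q with
  | zero => simpa using h0
  | succ q ih =>
    have h1 := ih (by omega)
    have p := pow_ge o
    have h2 := V_step o ho q (by omega)
    have h3 := EOK_all hSAD hDAT hELL hCKE o q (by omega)
    rw [min_eq_left (show o ≤ 7 by omega)] at h3
    have e : 30 + 3 * (q + 1) = 33 + 3 * q := by ring
    rw [e, ← add_assoc]
    exact hVCH _ _ _ _ _ (by nlinarith) (Nat.mul_le_mul_right _ (by omega)) h3 h2 h1

lemma VCHN (hVCH : VCH_stmt) (hSAD : SAD_stmt) (hDAT : DAT_stmt) (hELL : ELL_stmt) (hCKE : CKE_stmt)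
    (o : ℕ) (ho : o ≤ 8) :
    (dig VTN (10 * o) : ℝ) / 1000 ≤ V (Pr (30 * 2 ^ o)) * ((30 * 2 ^ o : ℕ) : ℝ) ^ 2 := by
  induction o with
  | zero =>
    have h1 := hSAD.2.2.2.2.2
    simp only [mul_zero, pow_zero, mul_one]
    rw [V_zero, h1]
    norm_num
  | succ o ih =>
    have h1 := VCHN_step hVCH hSAD hDAT hELL hCKE o (by omega) (ih (by omega)) 10 (le_refl _)
    have e1 : 30 * 2 ^ (o + 1) = (30 + 3 * 10) * 2 ^ o := by ring
    have e2 : 10 * (o + 1) = 10 * o + 10 := by ring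
    rw [e1, e2]
    exact h1

/-- bounds for `V h ^ 2` -/
lemma KVB (hVCH : VCH_stmt) (hSAD : SAD_stmt) (hDAT : DAT_stmt) (hELL : ELL_stmt) (hCKE : CKE_stmt)
    (hVIN : VIN_stmt) (o q : ℕ) (hq : q < 10) :
    (KV (min o 7) : ℝ) ≤ V (Pr ((30 + 3 * q) * 2 ^ o)) * (((30 + 3 * q) * 2 ^ o : ℕ) : ℝ) ^ 2 := by
  rcases Nat.lt_or_ge o 8 with h | h
  · rw [min_eq_left (show o ≤ 7 by omega)]
    have h1 := VCHN_step hVCH hSAD hDAT hELL hCKE o h (VCHN hVCH hSAD hDAT hELL hCKE o (by omega)) q (by omega)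
    refine le_trans ?_ h1
    rw [le_div_iff₀ (by norm_num)]
    exact_mod_cast V_min o h q hq
  · rw [min_eq_right (show 7 ≤ o by omega)]
    have h1 := VCHN hVCH hSAD hDAT hELL hCKE 8 (le_refl _)
    have h2 : (291 : ℝ) ≤ V (Pr 7680) * (7680 : ℝ) ^ 2 := by
      have h3 : (291000 : ℝ) ≤ (dig VTN 80 : ℝ) := by exact_mod_cast V_last
      have h4 : (dig VTN 80 : ℝ) / 1000 ≤ V (Pr 7680) * (7680 : ℝ) ^ 2 := by
        have e : 30 * 2 ^ 8 = 7680 := by norm_num
        rw [e] at h1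
        exact_mod_cast h1
      refine le_trans ?_ h4
      rw [le_div_iff₀ (by norm_num)]
      linarith
    have h5 : 7680 ≤ (30 + 3 * q) * 2 ^ o := by
      have : 2 ^ 8 ≤ 2 ^ o := Nat.pow_le_pow_right (by norm_num) h
      nlinarith
    have h6 := hVIN h2 _ h5
    have e : KV 7 = 280 := by decide
    rw [e]
    exact_mod_cast h6

lemma V57 (hVCH : VCH_stmt) (hSAD : SAD_stmt) (hDAT : DAT_stmt) (hELL : ELL_stmt) (hCKE : CKE_stmt) :
    (744 : ℝ) ≤ V (Pr 57) * (57 : ℝ) ^ 2 := by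
  have h1 := VCHN_step hVCH hSAD hDAT hELL hCKE 0 (by norm_num)
    (VCHN hVCH hSAD hDAT hELL hCKE 0 (by norm_num)) 9 (by norm_num)
  have e : (30 + 3 * 9) * 2 ^ 0 = 57 := by norm_num
  rw [e] at h1
  have h3 : (744000 : ℝ) ≤ (dig VTN 9 : ℝ) := by exact_mod_cast V_nine
  have h4 : (dig VTN 9 : ℝ) / 1000 ≤ V (Pr 57) * (57 : ℝ) ^ 2 := by exact_mod_cast h1
  refine le_trans ?_ h4
  rw [le_div_iff₀ (by norm_num)]
  linarith

lemma BLK_cov : ∀ b < 300, 30 ≤ b →
    ∃ j < 33, (30 + 3 * (j % 10)) * 2 ^ (j / 10) ≤ b ∧ b < (33 + 3 * (j % 10)) * 2 ^ (j / 10) := by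
  decide +kernel

lemma mem_BLK (o : ℕ) (t : ℕ × ℕ × ℕ) : t ∈ BLK o ↔ ∃ j < 33,
    ((30 + 3 * (j % 10)) * 2 ^ (j / 10), (33 + 3 * (j % 10)) * 2 ^ (j / 10),
      EL (min (o + j / 10) 7) (j % 10 + 1)) = t := by
  simp [BLK]

/-- the blocks -/
lemma BLKOK (hSAD : SAD_stmt) (hDAT : DAT_stmt) (hELL : ELL_stmt) (o q : ℕ) (hq : q < 10) :
    BlkOK (2 ^ o) (30 + 3 * q) (BLK (min o 7)) := by
  refine ⟨?_, ?_, ?_⟩
  · intro t ht
    obtain ⟨j, hj, rfl⟩ := (mem_BLK _ _).mp ht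
    have h1 := BSM hSAD hDAT hELL (o + j / 10) (j % 10) (Nat.mod_lt _ (by norm_num))
    have e : min (min o 7 + j / 10) 7 = min (o + j / 10) 7 := by omega
    simp only [e]
    have e1 : (30 + 3 * (j % 10)) * 2 ^ (j / 10) * 2 ^ o = (30 + 3 * (j % 10)) * 2 ^ (o + j / 10) := by
      rw [pow_add]; ring
    have e2 : (33 + 3 * (j % 10)) * 2 ^ (j / 10) * 2 ^ o = (33 + 3 * (j % 10)) * 2 ^ (o + j / 10) := by
      rw [pow_add]; ring
    rw [e1, e2]
    exact h1
  · intro t ht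
    obtain ⟨j, hj, rfl⟩ := (mem_BLK _ _).mp ht
    intro h
    simp only at h ⊢
    have h1 : j / 10 = 0 := by
      by_contra h2
      have : 2 ^ 1 ≤ 2 ^ (j / 10) := Nat.pow_le_pow_right (by norm_num) (by omega)
      nlinarith [Nat.zero_le (j % 10)]
    rw [h1] at h ⊢
    omega
  · intro b h1 h2
    obtain ⟨j, hj, h3, h4⟩ := BLK_cov b h2 h1
    exact ⟨_, (mem_BLK _ _).mpr ⟨j, hj, rfl⟩, h3, h4⟩

lemma KAP_ge (o : ℕ) : 34 ≤ KAP (min o 7) * 2 ^ o ∧ KAP (min o 7) ≤ 34 := by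
  rcases Nat.lt_or_ge o 7 with h | h
  · interval_cases o <;> decide
  · rw [min_eq_right h]
    have : 2 ^ 7 ≤ 2 ^ o := Nat.pow_le_pow_right (by norm_num) h
    have e : KAP 7 = 2 := by decide
    rw [e]
    omega

lemma sq_bound (n Y o a : ℕ) (h : (n + 1) ^ 10 ≤ 2 ^ ((Y + 1) * 2 ^ o)) (h2 : 2 * (Y + 1) ≤ 11 * a) :
    (n + 1) ^ 20 ≤ 2 ^ (11 * (a * 2 ^ o)) := by
  calc (n + 1) ^ 20 = ((n + 1) ^ 10) ^ 2 := by ring
    _ ≤ (2 ^ ((Y + 1) * 2 ^ o)) ^ 2 := Nat.pow_le_pow_left h 2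
    _ = 2 ^ (2 * (Y + 1) * 2 ^ o) := by rw [← pow_mul]; ring_nf
    _ ≤ 2 ^ (11 * a * 2 ^ o) := Nat.pow_le_pow_right (by norm_num) (Nat.mul_le_mul_right _ h2)
    _ = 2 ^ (11 * (a * 2 ^ o)) := by rw [mul_assoc]

lemma fin_of (n h : ℕ) (x : ℝ) (hsub : Gd n h ⊆ Tset n) (h1 : (n : ℝ) ≤ x)
    (h2 : (n : ℝ) ^ 2 / (20 * Real.log n ^ 2) ≤ x) (h3 : x ≤ ((Gd n h).card : ℝ)) :
    n ≤ (Tset n).card ∧ (n : ℝ) ^ 2 / (20 * Real.log n ^ 2) ≤ ((Tset n).card : ℝ) := by
  have h4 : ((Gd n h).card : ℝ) ≤ ((Tset n).card : ℝ) := by exact_mod_cast card_le_card hsub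
  exact ⟨by exact_mod_cast (h1.trans (h3.trans h4)), h2.trans (h3.trans h4)⟩

theorem MAIN (hSAD : SAD_stmt) (hDAT : DAT_stmt) (hELL : ELL_stmt) (hCKE : CKE_stmt) (hSTT : STT_stmt)
    (hBTB : BTB_stmt) (hCRS : CRS_stmt) (hTL0 : TL0_stmt) (hTLS : TLS_stmt) (hSIG : SIG_stmt)
    (hLPA : LPA_stmt) (hLPM : LPM_stmt) (hVBD : VBD_stmt) (hVCH : VCH_stmt) (hVIN : VIN_stmt)
    (hPC2 : PC2_stmt) (hPC3 : PC3_stmt) (hCTB : CTB_stmt) (hSUB : SUB_stmt) (hEXO : EXO_stmt)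
    (hSML : SML_stmt) (n : ℕ) (hn : 3 ≤ n) :
    n ≤ (Tset n).card ∧ (n : ℝ) ^ 2 / (20 * Real.log n ^ 2) ≤ ((Tset n).card : ℝ) := by
  rcases Nat.lt_or_ge n 128 with h | h
  · obtain ⟨h1, h2⟩ := hSML n hn (by omega)
    refine ⟨h1, h2.trans ?_⟩
    exact_mod_cast h1
  have tbl := TBL hSAD hDAT hELL hCKE hSTT hBTB hCRS hTL0 hTLS hSIG hLPA hLPM hVBD
  have kvb := KVB hVCH hSAD hDAT hELL hCKE hVIN
  have blk := BLKOK hSAD hDAT hELL
  rcases hEXO n h with ⟨Y, hY1, hY2, h1, h2⟩ | ⟨o, Y, hY1, hY2, h1, h2⟩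
  · -- `Y < 150`
    have c1 := (allB_iff _ _).mp lo0a (Y - 70) (by omega)
    rw [show 70 + (Y - 70) = Y by omega] at c1
    have t1 := tbl 0 0 (by norm_num)
    have b1 := blk 0 0 (by norm_num)
    have k1 := kvb 0 0 (by norm_num)
    have e0 : min 0 7 = 0 := by norm_num
    rw [e0] at t1 b1 k1
    simp only [mul_zero, add_zero, pow_zero, mul_one] at t1 b1 k1
    have r := hPC3 850 1 30 Y (KAP 0) (KV 0) (dig LAM0 (Y - 70)) (LT 0 0) (UT 0 0) n LSN (BLK 0)
      (Or.inl rfl) (le_refl _) (by norm_num) hY1 (by omega) (by omega) (by decide) (by decide) h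
      (by simpa using h1) (by simpa using h2) (by simpa using t1) b1 (by decide) (by simpa using k1)
      (fun h h1 h2 => sig_one hDAT h h1 h2) (by norm_num) c1
    have s := hSUB n 30 h (by norm_num) (by
      have := sq_bound n Y 0 30 (by simpa using h2) (by omega)
      simpa using this)
    have c := hCTB.2.2 n h
    refine fin_of n 30 _ s c.1 c.2 ?_
    rw [mul_one] at r
    norm_num at r ⊢
    exact r
  · rcases Nat.eq_zero_or_pos o with ho | ho
    · subst ho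
      have c1 := (allB_iff _ _).mp lo0b (Y - 150) (by omega)
      rw [show 150 + (Y - 150) = Y by omega] at c1
      have t1 := tbl 0 9 (by norm_num)
      have b1 := blk 0 9 (by norm_num)
      have k1 := kvb 0 9 (by norm_num)
      have e0 : min 0 7 = 0 := by norm_num
      have e1 : 30 + 3 * 9 = 57 := by norm_num
      rw [e0, e1] at t1 b1 k1
      simp only [pow_zero, mul_one] at t1 b1 k1 h1 h2
      have r := hPC3 950 1 57 Y (KAP 0) (KV 0) (dig LAM0 (80 + (Y - 150))) (LT 0 9) (UT 0 9) n LSN (BLK 0)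
        (Or.inl rfl) (by norm_num) (le_refl _) (by omega) hY2 (by omega) (by decide) (by decide) h
        (by simpa using h1) (by simpa using h2) (by simpa using t1) b1 (by decide) (by simpa using k1)
        (fun h h1 h2 => sig_one hDAT h h1 h2) (by norm_num) c1
      have s := hSUB n 57 h (by norm_num) (by
        have := sq_bound n Y 0 57 (by simpa using h2) (by omega)
        simpa using this)
      have c := hCTB.2.1 n Y h hY1 h1 (V57 hVCH hSAD hDAT hELL hCKE)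
      refine fin_of n 57 _ s c.1 c.2 ?_
      rw [mul_one] at r
      refine le_trans (le_of_eq ?_) r
      norm_num
      ring
    · -- `o ≥ 1`
      obtain ⟨j, rfl⟩ : ∃ j, Y = 150 + j := ⟨Y - 150, by omega⟩
      have hj : j < 150 := by omega
      have hq : j / 15 < 10 := by omega
      have t1 := tbl o (j / 15) (by omega)
      have b1 := blk o (j / 15) hq
      have k1 := kvb o (j / 15) hq
      have kp := KAP_ge o
      have kv : (280 : ℝ) ≤ (KV (min o 7) : ℝ) := by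
        have : ∀ i < 8, 280 ≤ KV i := by decide
        exact_mod_cast this (min o 7) (by omega)
      have s := hSUB n ((30 + 3 * (j / 15)) * 2 ^ o) h 
        (le_trans (by omega) (Nat.le_mul_of_pos_right (30 + 3 * (j / 15)) (pow_ge o)))
        (sq_bound n (150 + j) o (30 + 3 * (j / 15)) h2 (by omega))
      have c := hCTB.1 n o (30 + 3 * (j / 15)) (150 + j) h ho (by omega) (by omega) (by omega) h1 (kv.trans k1)
      refine fin_of n _ _ s c.1 c.2 ?_
      rcases Nat.lt_or_ge o 3 with ho3 | ho3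
      · have ho2 : o = 1 ∨ o = 2 := by omega
        have key : Xn n * V (Pr ((30 + 3 * (j / 15)) * 2 ^ o)) * (1 - (975 : ℕ) / 1000) ≤
            ((Gd n ((30 + 3 * (j / 15)) * 2 ^ o)).card : ℝ) := by
          rcases ho2 with rfl | rfl
          · have c1 := (allB_iff _ _).mp lo1 j hj
            have e0 : min 1 7 = 1 := by norm_num
            rw [e0] at t1 b1 k1 kp
            exact hPC3 975 (2 ^ 1) (30 + 3 * (j / 15)) (150 + j) (KAP 1) (KV 1) (dig LAM1 j) _ _ n LSN (BLK 1)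
              (Or.inr (Or.inl (by norm_num))) (by omega) (by omega) (by omega) hY2 (by omega) kp.1 kp.2 h
              h1 h2 t1 b1 (by decide) k1 (fun h h1 h2 => sig_one hDAT h h1 h2) (by norm_num) c1
          · have c1 := (allB_iff _ _).mp lo2 j hj
            have e0 : min 2 7 = 2 := by norm_num
            rw [e0] at t1 b1 k1 kp
            exact hPC3 975 (2 ^ 2) (30 + 3 * (j / 15)) (150 + j) (KAP 2) (KV 2) (dig LAM2 j) _ _ n LSN (BLK 2)
              (Or.inr (Or.inr (by norm_num))) (by omega) (by omega) (by omega) hY2 (by omega) kp.1 kp.2 h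
              h1 h2 t1 b1 (by decide) k1 (fun h h1 h2 => sig_one hDAT h h1 h2) (by norm_num) c1
        refine le_trans (le_of_eq ?_) key
        norm_num
        ring
      · have chk : chkHi (2 ^ (min o 7)) (30 + 3 * (j / 15)) (150 + j) (KAP (min o 7)) (dig LAMH j)
            (BLK (min o 7)) (LT (min o 7) (j / 15)) (UT (min o 7) (j / 15)) = true := by
          have h3 : min o 7 = 3 ∨ min o 7 = 4 ∨ min o 7 = 5 ∨ min o 7 = 6 ∨ min o 7 = 7 := by omega
          rcases h3 with h3 | h3 | h3 | h3 | h3 <;> rw [h3]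
          · exact (allB_iff _ _).mp hi3 j hj
          · exact (allB_iff _ _).mp hi4 j hj
          · exact (allB_iff _ _).mp hi5 j hj
          · exact (allB_iff _ _).mp hi6 j hj
          · exact (allB_iff _ _).mp hi7 j hj
        refine hPC2 (2 ^ (min o 7)) (2 ^ o) (30 + 3 * (j / 15)) (150 + j) (KAP (min o 7)) (dig LAMH j) _ _ n
          (BLK (min o 7)) ?_ ?_ (by omega) (by omega) (by omega) hY2 kp.1 kp.2 h h1 h2 t1 b1 (kv.trans k1) chk
        · calc 8 = 2 ^ 3 := by norm_num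
            _ ≤ _ := Nat.pow_le_pow_right (by norm_num) (by omega)
        · exact Nat.pow_le_pow_right (by norm_num) (min_le_left _ _)

end Pool.Agent.SX
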