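import Pool.Agent.helper79.SX.Ker
import Pool.Agent.Lib.BrunHooley
import Pool.Agent.Lib.SieveInterval

/-!
# Project sx (MP_5628fe_nt): definitions
-/

set_option autoImplicit false

open Finset ArithmeticFunction

namespace Pool.Agent.SX

/-! ## The sieve -/

/-- the primes `p ≥ 7` with `p ^ 10 < 2 ^ h` -/
def Pr (h : ℕ) : Finset ℕ :=
  (range (2 ^ (h / 10 + 1))).filter fun p => p.Prime ∧ 7 ≤ p ∧ p ^ 10 < 2 ^ h

/-- the block of the primes `p ≥ 7` with `2 ^ h ≤ p ^ 10 < 2 ^ h'` -/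
def Bl (h h' : ℕ) : Finset ℕ := Pr h' \ Pr h

/-- the number of `m ∈ A` such that all primes of `D` and no primes of `P` divide `m (m + 6)` -/
def S (A P D : Finset ℕ) : ℕ :=
  (A.filter fun m => (∀ p ∈ D, p ∣ m * (m + 6)) ∧ ∀ p ∈ P, ¬ p ∣ m * (m + 6)).card

/-- `∏_{p ∈ D} 2 / p` -/
noncomputable def g (D : Finset ℕ) : ℝ := ∏ p ∈ D, (2 / p : ℝ)

/-- `∏_{p ∈ P} (1 - 2 / p)` -/
noncomputable def V (P : Finset ℕ) : ℝ := ∏ p ∈ P, (1 - 2 / p : ℝ)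

/-- elementary symmetric sum of degree `k` of `2 / p` over `Q` -/
noncomputable def ek (Q : Finset ℕ) (k : ℕ) : ℝ :=
  Pool.Agent.Lib.BrunHooley.es Q (fun p => (2 / p : ℝ)) k

/-- `∑_{p ∈ Bl h h'} 2 / p` -/
noncomputable def sig (h h' : ℕ) : ℝ := ∑ p ∈ Bl h h', (2 / p : ℝ)

/-- `A` has density `X g` with error `2 ^ |D|` on the sets of primes `D` -/
def Dens (A : Finset ℕ) (X : ℝ) : Prop :=
  0 < X ∧ ∀ D : Finset ℕ, (∀ p ∈ D, p.Prime ∧ 7 ≤ p) → |(S A ∅ D : ℝ) - X * g D| ≤ 2 ^ D.card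

/-- upper bound sieve with the primes below `2 ^ (h / 10)`: relative error `v` as soon as
`X / ∏ D ≥ 2 ^ (B / 10)` -/
def Up (h B : ℕ) (v : ℝ) : Prop :=
  ∀ (A : Finset ℕ) (X : ℝ), Dens A X → ∀ D : Finset ℕ, (∀ p ∈ D, p.Prime ∧ 2 ^ h ≤ p ^ 10) →
    (2 : ℝ) ^ B * (∏ p ∈ D, (p : ℝ)) ^ 10 ≤ X ^ 10 →
    (S A (Pr h) D : ℝ) ≤ X * g D * V (Pr h) * (1 + v)

/-- lower bound sieve -/
def Lo (h B : ℕ) (v : ℝ) : Prop :=
  ∀ (A : Finset ℕ) (X : ℝ), Dens A X → ∀ D : Finset ℕ, (∀ p ∈ D, p.Prime ∧ 2 ^ h ≤ p ^ 10) →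
    (2 : ℝ) ^ B * (∏ p ∈ D, (p : ℝ)) ^ 10 ≤ X ^ 10 →
    X * g D * V (Pr h) * (1 - v) ≤ (S A (Pr h) D : ℝ)

/-- the tables `L`, `U` (digits in base `2 ^ 48`, scaled by `2 ^ 40`; the index `i` stands for `B = i u`)
are valid at `h`; the upper table is used from the index `a` on -/
def TabOK (h u a L U : ℕ) : Prop :=
  (∀ i, i ≤ 900 → Lo h (i * u) ((dig L i : ℝ) / 2 ^ 40)) ∧
    ∀ i, a ≤ i → i ≤ 900 → Up h (i * u) ((dig U i : ℝ) / 2 ^ 40)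

/-- exponential bound for the indices beyond the table -/
def TailOK (h : ℕ) : Prop :=
  ∀ m, 15 ≤ m → Lo h (m * h) (600 / 3 ^ m) ∧ Up h (m * h) (600 / 3 ^ m)

/-- the digits of `E`, scaled by `2 ^ 44`, bound `e_k / V` for the block -/
def EOK (h h' E : ℕ) : Prop :=
  ∀ k, k ≤ 10 → ek (Bl h h') k / V (Bl h h') ≤ (dig E k : ℝ) / 2 ^ 44

/-! ## Prime number sums -/

/-- the primes in `[w, t]` -/
noncomputable def pc (w t : ℝ) : Finset ℕ := (range (⌊t⌋₊ + 1)).filter fun p => p.Prime ∧ w ≤ p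

/-- `∑_{w ≤ p ≤ t} log p / p ≤ α log (t / w) + κ` for `2 ^ 18 ≤ w ≤ t` -/
def LP (α κ : ℝ) : Prop :=
  ∀ w t : ℝ, 2 ^ 18 ≤ w → w ≤ t → ∑ p ∈ pc w t, Real.log p / p ≤ α * Real.log (t / w) + κ

/-- Chebyshev's combination `T(N) - T(N/2) - T(N/3) - T(N/5) + T(N/30)`, `T(N) = log N!` -/
noncomputable def FC (N : ℕ) : ℝ :=
  Real.log (N.factorial : ℝ) - Real.log ((N / 2).factorial : ℝ) - Real.log ((N / 3).factorial : ℝ)
    - Real.log ((N / 5).factorial : ℝ) + Real.log ((N / 30).factorial : ℝ)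

/-! ## The application -/

/-- the integers `m ≡ 1 mod 30` with `n ^ 3 < m`, `m + 6 < (n + 1) ^ 3` -/
def An (n : ℕ) : Finset ℕ :=
  (Ioc (n ^ 3) (n ^ 3 + (3 * n ^ 2 + 3 * n - 6))).filter fun m => m % 30 = 1

/-- the expected number of elements of `An n` -/
noncomputable def Xn (n : ℕ) : ℝ := (3 * (n : ℝ) ^ 2 + 3 * n - 6) / 30

/-- the primes `p ≤ n` with `2 ^ h ≤ p ^ 10` -/
def Rg (n h : ℕ) : Finset ℕ := (range (n + 1)).filter fun p => p.Prime ∧ 2 ^ h ≤ p ^ 10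

/-- the weight `1 - log p / log (n + 1)` -/
noncomputable def wt (n p : ℕ) : ℝ := 1 - Real.log p / Real.log ((n : ℝ) + 1)

open Classical in
/-- `∑ (1 - log p / log (n + 1))` over the primes `p ∈ Rg n h` dividing `m (m + 6)` -/
noncomputable def Wt (n h m : ℕ) : ℝ := ∑ p ∈ (Rg n h).filter (fun p => p ∣ m * (m + 6)), wt n p

open Classical in
/-- the elements of `An n` that are counted -/
noncomputable def Gd (n h : ℕ) : Finset ℕ :=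
  (An n).filter fun m => (∀ p ∈ Pr h, ¬ p ∣ m * (m + 6)) ∧
    (∀ p ∈ Rg n h, ¬ p ^ 2 ∣ m ∧ ¬ p ^ 2 ∣ m + 6) ∧ Wt n h m < 2

open Classical in
/-- The set of the theorem: the `m` with `n ^ 3 < m`, `m + 6 < (n + 1) ^ 3` such that `m` and `m + 6`
have at most four prime factors each and at most seven together (with multiplicity), no prime factor
below `7` and none at most `n ^ (2 / 11)`, and there is no prime strictly between `m` and `m + 6`. -/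
noncomputable def Tset (n : ℕ) : Finset ℕ :=
  (Ioo (n ^ 3) ((n + 1) ^ 3)).filter fun m => m + 6 < (n + 1) ^ 3 ∧
    cardFactors m ≤ 4 ∧ cardFactors (m + 6) ≤ 4 ∧ cardFactors m + cardFactors (m + 6) ≤ 7 ∧
    (∀ p : ℕ, p.Prime → p ∣ m * (m + 6) → 7 ≤ p ∧ n ^ 2 < p ^ 11) ∧
    ∀ q : ℕ, m < q → q < m + 6 → ¬ q.Prime

/-- the list `bl` of blocks `(b, b', l)` (units `u`) covers `[30, 300)`, `a` is a boundary, and `l / 2 ^ 44`
bounds the block sums -/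
def BlkOK (u a : ℕ) (bl : List (ℕ × ℕ × ℕ)) : Prop :=
  (∀ t ∈ bl, sig (t.1 * u) (t.2.1 * u) ≤ (t.2.2 : ℝ) / 2 ^ 44) ∧
    (∀ t ∈ bl, t.1 < a → t.2.1 ≤ a) ∧ ∀ b, 30 ≤ b → b < 300 → ∃ t ∈ bl, t.1 ≤ b ∧ b < t.2.1

/-- the block part of a piece -/
noncomputable def M2 (U a Y κ : ℕ) (bl : List (ℕ × ℕ × ℕ)) : ℝ :=
  (bl.map fun t => if a ≤ t.1 ∧ t.1 ≤ Y then
    (t.2.2 : ℝ) / 2 ^ 45 * (((Y : ℝ) + 1 - t.1) / (Y + 1)) * ((dig U (2 * Y - κ - t.2.1) : ℝ) / 2 ^ 40)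
    else 0).sum

end Pool.Agent.SX
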