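import Pool.Agent.helper45.SX.ABL
import Pool.Agent.helper73.SX.BAS
import Pool.Agent.helper45.SX.BON
import Pool.Agent.helper30.SX.BTB
import Pool.Agent.helper13.SX.CH1
import Pool.Agent.helper43.SX.CH2
import Pool.Agent.helper72.SX.CH3
import Pool.Agent.helper31.SX.CH4
import Pool.Agent.helper16.SX.CH5
import Pool.Agent.helper38.SX.CH6
import Pool.Agent.helper52.SX.CHA
import Pool.Agent.helper52.SX.CKE
import Pool.Agent.helper57.SX.CNT
import Pool.Agent.helper23.SX.CRS
import Pool.Agent.helper45.SX.CTB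
import Pool.Agent.helper91.SX.DAT
import Pool.Agent.helper31.SX.DEN
import Pool.Agent.helper14.SX.DIR
import Pool.Agent.helper70.SX.EBD
import Pool.Agent.helper63.SX.ELL
import Pool.Agent.helper16.SX.EXO
import Pool.Agent.helper24.SX.GOS
import Pool.Agent.helper31.SX.LGQ
import Pool.Agent.helper91.SX.LPA
import Pool.Agent.helper13.SX.LPM
import Pool.Agent.helper62.SX.MON
import Pool.Agent.helper18.SX.OMG
import Pool.Agent.helper63.SX.PC1
import Pool.Agent.helper33.SX.PC2
import Pool.Agent.helper97.SX.PC3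
import Pool.Agent.helper45.SX.PCM
import Pool.Agent.helper12.SX.SAD
import Pool.Agent.helper19.SX.SIG
import Pool.Agent.helper25.SX.SML
import Pool.Agent.helper62.SX.SQB
import Pool.Agent.helper95.SX.STP
import Pool.Agent.helper61.SX.STT
import Pool.Agent.helper77.SX.SUB
import Pool.Agent.helper13.SX.TL0
import Pool.Agent.helper95.SX.TLS
import Pool.Agent.helper65.SX.VBD
import Pool.Agent.helper64.SX.VCH
import Pool.Agent.helper75.SX.VIN
import Pool.Agent.helper61.SX.XSZ
import Pool.Agent.helper79.SX.AsmB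

/-! # Project sx: the final theorem -/

set_option autoImplicit false

open Finset ArithmeticFunction

namespace Pool.Agent.SX

theorem all_ABL : ABL_stmt := ABL
theorem all_BAS : BAS_stmt := BAS
theorem all_BON : BON_stmt := BON
theorem all_BTB : BTB_stmt := BTB all_BAS
theorem all_CH1 : CH1_stmt := CH1
theorem all_CH2 : CH2_stmt := CH2
theorem all_CHA : CHA_stmt := CHA
theorem all_CH3 : CH3_stmt := CH3 all_CH2 all_CHA
theorem all_CH4 : CH4_stmt := CH4 all_CH1 all_CH3
theorem all_CH5 : CH5_stmt := CH5 all_CH1 all_CH3 all_CH4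
theorem all_CH6 : CH6_stmt := CH6 all_CH1 all_CH3 all_CH4
theorem all_EBD : EBD_stmt := EBD
theorem all_CKE : CKE_stmt := CKE all_EBD
theorem all_CNT : CNT_stmt := CNT
theorem all_MON : MON_stmt := MON
theorem all_CRS : CRS_stmt := CRS all_MON
theorem all_XSZ : XSZ_stmt := XSZ
theorem all_SAD : SAD_stmt := SAD
theorem all_CTB : CTB_stmt := CTB all_XSZ all_SAD
theorem all_DAT : DAT_stmt := DAT all_SAD
theorem all_DEN : DEN_stmt := DEN
theorem all_DIR : DIR_stmt := DIR all_SAD all_ABL
theorem all_SIG : SIG_stmt := SIG all_SAD all_ABL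
theorem all_LPA : LPA_stmt := LPA all_ABL all_CH5 all_CH6
theorem all_LPM : LPM_stmt := LPM all_CH2 all_CH5
theorem all_LGQ : LGQ_stmt := LGQ
theorem all_ELL : ELL_stmt := ELL all_SIG all_LPA all_LPM all_LGQ
theorem all_EXO : EXO_stmt := EXO
theorem all_GOS : GOS_stmt := GOS
theorem all_OMG : OMG_stmt := OMG
theorem all_SQB : SQB_stmt := SQB
theorem all_PC1 : PC1_stmt := PC1 all_SAD all_DEN all_XSZ all_CNT all_SQB
theorem all_PCM : PCM_stmt := PCM
theorem all_PC2 : PC2_stmt := PC2 all_PC1 all_PCM all_SAD all_DIR all_LPA all_LPM all_XSZ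
theorem all_PC3 : PC3_stmt := PC3 all_PC1 all_PCM all_SAD all_DIR all_LPA all_LPM all_XSZ
theorem all_SML : SML_stmt := SML
theorem all_STP : STP_stmt := STP all_SAD all_BON
theorem all_STT : STT_stmt := STT all_MON all_STP all_GOS
theorem all_SUB : SUB_stmt := SUB all_OMG all_SAD
theorem all_TL0 : TL0_stmt := TL0
theorem all_TLS : TLS_stmt := TLS all_MON all_STP all_EBD
theorem all_VBD : VBD_stmt := VBD all_EBD
theorem all_VCH : VCH_stmt := VCH all_SAD
theorem all_VIN : VIN_stmt := VIN all_SAD all_SIG all_LPM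

/-- **Main theorem of project sx.** -/
theorem ALL (n : ℕ) (hn : 3 ≤ n) :
    n ≤ (Tset n).card ∧ (n : ℝ) ^ 2 / (20 * Real.log n ^ 2) ≤ ((Tset n).card : ℝ) :=
  MAIN all_SAD all_DAT all_ELL all_CKE all_STT all_BTB all_CRS all_TL0 all_TLS all_SIG all_LPA all_LPM all_VBD
    all_VCH all_VIN all_PC2 all_PC3 all_CTB all_SUB all_EXO all_SML n hn

end Pool.Agent.SX
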