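import Pool.Agent.helper79.SX.Spec
import Pool.Agent.helper79.SX.Pc

/-! # Project sx: assembly, part 1 (the tables are valid) -/

set_option autoImplicit false

open Finset ArithmeticFunction

namespace Pool.Agent.SX

lemma allB_iff (n : ℕ) (p : ℕ → Bool) : allB n p = true ↔ ∀ i < n, p i = true := by
  induction n with
  | zero => simp [allB]
  | succ n ih =>
    have h : allB (n + 1) p = (p n && allB n p) := rfl
    rw [h, Bool.and_eq_true, ih]
    constructor
    · rintro ⟨h1, h2⟩ i hi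
      rcases Nat.lt_succ_iff_lt_or_eq.mp hi with h | h
      · exact h2 i h
      · rw [h]; exact h1
    · intro h
      exact ⟨h n (Nat.lt_succ_self n), fun i hi => h i (Nat.lt_succ_of_lt hi)⟩

lemma dat_all (h : ℕ) (h1 : 28 ≤ h) (h2 : h < 180) : chkDD h = true := by
  rcases lt_or_ge h 128 with h3 | h3
  · have := (allB_iff _ _).mp dat1 (h - 28) (by omega)
    rwa [show 28 + (h - 28) = h by omega] at this
  rcases lt_or_ge h 158 with h4 | h4
  · have := (allB_iff _ _).mp dat2 (h - 128) (by omega)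
    rwa [show 128 + (h - 128) = h by omega] at this
  rcases lt_or_ge h 172 with h5 | h5
  · have := (allB_iff _ _).mp dat3 (h - 158) (by omega)
    rwa [show 158 + (h - 158) = h by omega] at this
  · have := (allB_iff _ _).mp dat4 (h - 172) (by omega)
    rwa [show 172 + (h - 172) = h by omega] at this

lemma sig_one (hDAT : DAT_stmt) (h : ℕ) (h1 : 28 ≤ h) (h2 : h < 180) :
    sig h (h + 1) ≤ (dig LSN (h - 28) : ℝ) / 2 ^ 44 :=
  hDAT h _ _ _ h1 (dat_all h h1 h2)

lemma sig_self (h : ℕ) : sig h h = 0 := by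
  simp [sig, Bl]

lemma sig_data (hSAD : SAD_stmt) (hDAT : DAT_stmt) (a n : ℕ) (h1 : 28 ≤ a) (h2 : a + n ≤ 180) :
    sig a (a + n) ≤ ((((List.range n).map fun j => dig LSN (a - 28 + j)).sum : ℕ) : ℝ) / 2 ^ 44 := by
  induction n with
  | zero => simp [sig_self]
  | succ n ih =>
    have h3 := ih (by omega)
    have h4 := sig_one hDAT (a + n) (by omega) (by omega)
    have h5 := hSAD.2.2.2.1 a (a + n) (a + n + 1) (by omega) (by omega)
    rw [List.range_succ, List.map_append, List.sum_append, ← add_assoc a n 1, h5]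
    have h6 : a + n - 28 = a - 28 + n := by omega
    rw [h6] at h4
    simp only [List.map_cons, List.map_nil, List.sum_cons, List.sum_nil, add_zero]
    rw [Nat.cast_add, add_div]
    exact add_le_add h3 h4

lemma sig_num (x : ℝ) (s c : ℕ) (y : ℝ) (h1 : x ≤ (s : ℝ) / 2 ^ 44) (h2 : s ≤ c) (h3 : (c : ℝ) / 2 ^ 44 ≤ y) :
    x ≤ y := by
  refine h1.trans (le_trans ?_ h3)
  have : (s : ℝ) ≤ (c : ℝ) := by exact_mod_cast h2
  gcongr

/-- the block sums -/
lemma BSM (hSAD : SAD_stmt) (hDAT : DAT_stmt) (hELL : ELL_stmt) (o q : ℕ) (hq : q < 10) :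
    sig ((30 + 3 * q) * 2 ^ o) ((33 + 3 * q) * 2 ^ o) ≤ (EL (min o 7) (q + 1) : ℝ) / 2 ^ 44 := by
  rcases le_or_gt 180 ((30 + 3 * q) * 2 ^ o) with h | h
  · have h1 : 180 ≤ (30 + 3 * q) * 2 ^ min o 7 := by
      rcases le_or_gt o 7 with h2 | h2
      · rwa [min_eq_left h2]
      · rw [min_eq_right h2.le]
        norm_num
        omega
    have h2 := ell_formula (min o 7) (by omega) q hq h1
    refine hELL (q + 1) _ _ _ _ (by omega) (by omega) h1 ?_ ?_ h2
    · exact Nat.mul_le_mul_left _ (Nat.pow_le_pow_right (by norm_num) (min_le_left _ _))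
    · ring
  · have ho : o < 3 := by
      by_contra h3
      have : 2 ^ 3 ≤ 2 ^ o := Nat.pow_le_pow_right (by norm_num) (by omega)
      have : (30 + 3 * q) * 8 ≤ (30 + 3 * q) * 2 ^ o := Nat.mul_le_mul_left _ this
      omega
    have e : min o 7 = o := by omega
    rw [e]
    have h3 := ell_data
    interval_cases o
    · rw [h3.1 q hq]
      have := sig_data hSAD hDAT (30 + 3 * q) 3 (by omega) (by omega)
      rw [show 30 + 3 * q - 28 = 2 + 3 * q by omega] at this
      simpa [show 30 + 3 * q + 3 = 33 + 3 * q by ring] using this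
    · rw [h3.2.1 q hq]
      have := sig_data hSAD hDAT (60 + 6 * q) 6 (by omega) (by omega)
      rw [show 60 + 6 * q - 28 = 32 + 6 * q by omega] at this
      rw [show (30 + 3 * q) * 2 ^ 1 = 60 + 6 * q by ring, show (33 + 3 * q) * 2 ^ 1 = 60 + 6 * q + 6 by ring]
      exact this
    · have hq5 : q < 5 := by omega
      rw [h3.2.2 q hq5]
      have := sig_data hSAD hDAT (120 + 12 * q) 12 (by omega) (by omega)
      rw [show 120 + 12 * q - 28 = 92 + 12 * q by omega] at this
      rw [show (30 + 3 * q) * 2 ^ 2 = 120 + 12 * q by ring,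
        show (33 + 3 * q) * 2 ^ 2 = 120 + 12 * q + 12 by ring]
      exact this

lemma pow_ge (o : ℕ) : 1 ≤ 2 ^ o := Nat.one_le_two_pow

/-- the block data -/
lemma EOK_all (hSAD : SAD_stmt) (hDAT : DAT_stmt) (hELL : ELL_stmt) (hCKE : CKE_stmt) (o q : ℕ) (hq : q < 10) :
    EOK ((30 + 3 * q) * 2 ^ o) ((33 + 3 * q) * 2 ^ o) (ET (min o 7) (q + 1)) := by
  have h1 := (step_all (min o 7) (by omega) q hq).1
  have p1 := pow_ge o
  have p2 := pow_ge (min o 7)
  refine hCKE _ _ _ _ _ ?_ ?_ ?_ (BSM hSAD hDAT hELL o q hq) h1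
  · nlinarith
  · exact Nat.mul_le_mul_left _ (Nat.pow_le_pow_right (by norm_num) (min_le_left _ _))
  · exact Nat.mul_le_mul_right _ (by omega)

/-- the octave sums -/
lemma OCT (hSAD : SAD_stmt) (hDAT : DAT_stmt) (hSIG : SIG_stmt) (hLPA : LPA_stmt) (hLPM : LPM_stmt)
    (hVBD : VBD_stmt) (o : ℕ) :
    sig (30 * 2 ^ o) (60 * 2 ^ o) ≤ 31 / 20 ∧ 1 / 5 ≤ V (Bl (30 * 2 ^ o) (60 * 2 ^ o)) := by
  have key : sig (30 * 2 ^ o) (60 * 2 ^ o) ≤ 31 / 20 ∧ (o = 0 → sig 30 60 ≤ 27 / 25) := by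
    rcases Nat.lt_or_ge o 3 with h | h
    · interval_cases o
      · have h1 := sig_data hSAD hDAT 30 30 (by norm_num) (by norm_num)
        have h2 : ((List.range 30).map fun j => dig LSN (30 - 28 + j)).sum ≤ 18999560927969 := by decide +kernel
        have h4 : sig 30 60 ≤ 27 / 25 := sig_num _ _ _ _ h1 h2 (by norm_num)
        refine ⟨?_, fun _ => h4⟩
        norm_num
        linarith
      · refine ⟨?_, by norm_num⟩
        have h1 := sig_data hSAD hDAT 60 60 (by norm_num) (by norm_num)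
        have h2 : ((List.range 60).map fun j => dig LSN (60 - 28 + j)).sum ≤ 27267888368844 := by decide +kernel
        exact sig_num _ _ _ _ h1 h2 (by norm_num)
      · refine ⟨?_, by norm_num⟩
        have h1 := sig_data hSAD hDAT 120 60 (by norm_num) (by norm_num)
        have h2 : ((List.range 60).map fun j => dig LSN (120 - 28 + j)).sum ≤ 14250000000000 := by decide +kernel
        have h4 := hSIG _ _ (by norm_num) (by norm_num) hLPA 180 240 (by norm_num) (by norm_num)
        have h5 := hSAD.2.2.2.1 120 180 240 (by norm_num) (by norm_num)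
        have h6 : Real.log (((240 : ℕ) : ℝ) / ((180 : ℕ) : ℝ)) ≤ 0.2877 := by
          rw [Real.log_le_iff_le_exp (by norm_num)]
          have := Real.sum_le_exp_of_nonneg (x := 0.2877) (by norm_num) 6
          refine le_trans ?_ this
          norm_num [sum_range_succ, Nat.factorial]
        have h7 : sig 120 180 ≤ 0.8101 := sig_num _ _ _ _ h1 h2 (by norm_num)
        norm_num at h4 h5 h6 h7 ⊢
        linarith
    · refine ⟨?_, by omega⟩
      have p : 2 ^ 3 ≤ 2 ^ o := Nat.pow_le_pow_right (by norm_num) h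
      have h1 := hSIG 1 (1090 / 1000) (by norm_num) (by norm_num) hLPM (30 * 2 ^ o) (60 * 2 ^ o) (by omega)
        (by omega)
      have h2 : (((60 * 2 ^ o : ℕ) : ℝ)) / ((30 * 2 ^ o : ℕ) : ℝ) = 2 := by
        push_cast
        field_simp
        norm_num
      rw [h2] at h1
      have h3 : (14.4269505 : ℝ) / ((30 * 2 ^ o : ℕ) : ℝ) ≤ 14.4269505 / 240 := by
        apply div_le_div_of_nonneg_left (by norm_num) (by norm_num)
        have : (240 : ℕ) ≤ 30 * 2 ^ o := by omega
        exact_mod_cast this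
      have h4 := Real.log_two_lt_d9
      nlinarith
  refine ⟨key.1, ?_⟩
  rcases Nat.eq_zero_or_pos o with h | h
  · subst h
    have := hVBD.2 (key.2 rfl)
    simpa using this
  · have p : 2 ^ 1 ≤ 2 ^ o := Nat.pow_le_pow_right (by norm_num) h
    exact hVBD.1 _ _ (by omega) (by omega) key.1

/-- one octave of blocks -/
lemma TAB_oct (hSAD : SAD_stmt) (hDAT : DAT_stmt) (hELL : ELL_stmt) (hCKE : CKE_stmt) (hSTT : STT_stmt)
    (o : ℕ) (h0 : TabOK (30 * 2 ^ o) (2 ^ o) 30 (LT (min o 7) 0) (UT (min o 7) 0)) (q : ℕ) (hq : q ≤ 10) :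
    TabOK ((30 + 3 * q) * 2 ^ o) (2 ^ o) (30 + 3 * q) (LT (min o 7) q) (UT (min o 7) q) := by
  induction q with
  | zero => simpa using h0
  | succ q ih =>
    have h1 := ih (by omega)
    have h2 := step_all (min o 7) (by omega) q (by omega)
    have p := pow_ge o
    have e : 30 + 3 * (q + 1) = 33 + 3 * q := by ring
    rw [e]
    refine hSTT _ _ _ (30 + 3 * q) _ _ _ _ _ _ ?_ ?_ rfl (by omega) (by omega)
      (EOK_all hSAD hDAT hELL hCKE o q (by omega)) h1 h2.2.1 h2.2.2
    · nlinarith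
    · exact Nat.mul_le_mul_right _ (by omega)

/-- the tables at the beginning of an octave -/
lemma STATE (hSAD : SAD_stmt) (hDAT : DAT_stmt) (hELL : ELL_stmt) (hCKE : CKE_stmt) (hSTT : STT_stmt)
    (hBTB : BTB_stmt) (hCRS : CRS_stmt) (hTL0 : TL0_stmt) (hTLS : TLS_stmt) (hSIG : SIG_stmt)
    (hLPA : LPA_stmt) (hLPM : LPM_stmt) (hVBD : VBD_stmt) (o : ℕ) :
    TabOK (30 * 2 ^ o) (2 ^ o) 30 (LT (min o 7) 0) (UT (min o 7) 0) ∧ TailOK (30 * 2 ^ o) := by
  induction o with
  | zero =>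
    constructor
    · have h1 := hBTB Linit init_B
      have h2 : sig 28 30 ≤ (linit : ℝ) / 2 ^ 44 := by
        rw [linit_data]
        have := sig_data hSAD hDAT 28 2 (by norm_num) (by norm_num)
        simpa [List.range_succ] using this
      have h3 : EOK 28 30 Einit := hCKE _ _ _ _ _ (le_refl _) (le_refl _) (by norm_num) h2 init_E
      exact hSTT 28 30 1 28 30 _ _ _ _ _ (le_refl _) (by norm_num) (by norm_num) (by norm_num) (by norm_num)
        h3 h1 init_L init_U
    · simpa [TL0_stmt] using hTL0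
  | succ o ih =>
    obtain ⟨h1, h2⟩ := ih
    have p := pow_ge o
    have h3 := TAB_oct hSAD hDAT hELL hCKE hSTT o h1 10 (le_refl _)
    have h4 := OCT hSAD hDAT hSIG hLPA hLPM hVBD o
    have h5 := tail_all (min o 7) (by omega)
    have h6 : TailOK (60 * 2 ^ o) := hTLS _ _ _ p h1 h5.1 h5.2 h2 h4.1 h4.2
    have h7 := coarse_all (min o 7) (by omega)
    have e : min (min o 7 + 1) 7 = min (o + 1) 7 := by omega
    rw [e] at h7
    have h8 := hCRS _ _ _ _ _ p (by simpa using h3) h6 h7.1 h7.2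
    have e1 : 30 * 2 ^ (o + 1) = 60 * 2 ^ o := by ring
    have e2 : 2 ^ (o + 1) = 2 * 2 ^ o := by ring
    rw [e1]
    refine ⟨?_, h6⟩
    rw [e2]
    exact h8

/-- **All tables are valid.** -/
theorem TBL (hSAD : SAD_stmt) (hDAT : DAT_stmt) (hELL : ELL_stmt) (hCKE : CKE_stmt) (hSTT : STT_stmt)
    (hBTB : BTB_stmt) (hCRS : CRS_stmt) (hTL0 : TL0_stmt) (hTLS : TLS_stmt) (hSIG : SIG_stmt)
    (hLPA : LPA_stmt) (hLPM : LPM_stmt) (hVBD : VBD_stmt) (o q : ℕ) (hq : q ≤ 10) :
    TabOK ((30 + 3 * q) * 2 ^ o) (2 ^ o) (30 + 3 * q) (LT (min o 7) q) (UT (min o 7) q) :=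
  TAB_oct hSAD hDAT hELL hCKE hSTT o
    (STATE hSAD hDAT hELL hCKE hSTT hBTB hCRS hTL0 hTLS hSIG hLPA hLPM hVBD o).1 q hq

end Pool.Agent.SX
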