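import Mathlib

/-!
# Project sx: kernel-evaluable functions of the certificate

All numbers are natural numbers; tables are natural numbers read in base `2 ^ 48`.
Sieve tables are scaled by `2 ^ 40`, block data by `2 ^ 44`.
-/

set_option autoImplicit false

namespace Pool.Agent.SX

/-- the `i`-th digit of `T` in base `2 ^ 48` -/
def dig (T i : ℕ) : ℕ := (T >>> (48 * i)) % 281474976710656

/-- `f n`, written so that the kernel evaluates `n` first -/
def frc {β : Type} (n : ℕ) (f : ℕ → β) : β := Nat.rec (f 0) (fun m _ => f (m + 1)) n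

/-- `p i` for all `i < n` -/
def allB (n : ℕ) (p : ℕ → Bool) : Bool := Nat.rec true (fun k ih => and (p k) ih) n

/-- rounded up quotient -/
def cdiv (a b : ℕ) : ℕ := (a + (b - 1)) / b

/-- Search for a truncation level. With `f` steps left: `A` is the table of the present term, `B` the other
table, `k` the number of primes, `i` the present index, `acc` the sum so far; `par` says that stopping
at `k` is allowed. True if for some allowed `k` the sum plus the error term is at most `tgt`. -/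
def go (E a tgt : ℕ) (f : ℕ) : ℕ → ℕ → Bool → ℕ → ℕ → ℕ → Bool :=
  Nat.rec (fun _ _ _ _ _ _ => false)
    (fun _ ih A B par k i acc =>
      frc (acc + dig E k * dig A i) fun acc' =>
        cond (and par (Nat.ble (acc' + dig E (k + 1) * 1099511627776) tgt)) true
          (cond (Nat.ble (2 * a) i) (ih B A (not par) (k + 1) (i - a) acc') false)) f

/-- the lower table `L'` follows from the tables `L`, `U` by one block with upper end `a` -/
def chkL (E a L U L' : ℕ) : Bool := allB 901 fun i =>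
  or (Nat.ble 1099511627776 (dig L' i))
    (and (Nat.ble (2 * a) i) (go E a (dig L' i * 17592186044416) 10 L U false 0 i 0))

/-- the upper table `U'` follows from the tables `L`, `U` by one block with upper end `a` -/
def chkU (E a L U U' : ℕ) : Bool := allB 901 fun i =>
  or (Nat.blt i a) (go E a (dig U' i * 17592186044416) 10 U L true 0 i 0)

/-- `E` majorizes `exp (x) x ^ k / k!` where `x = l (1 + 2 / 2 ^ (h / 10))`, scaled by `2 ^ 44` -/
def chkE (l h E : ℕ) : Bool :=
  frc (l + 2 * l / 2 ^ (h / 10) + 1) fun x =>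
    and (Nat.ble (2 * x) 17592186044416)
      (and (Nat.ble (96 * 17592186044416 ^ 5 + 96 * x * 17592186044416 ^ 4
          + 48 * x ^ 2 * 17592186044416 ^ 3 + 16 * x ^ 3 * 17592186044416 ^ 2
          + 4 * x ^ 4 * 17592186044416 + x ^ 5) (dig E 0 * (96 * 17592186044416 ^ 4)))
        (allB 10 fun k => Nat.ble (dig E k * l) (dig E (k + 1) * ((k + 1) * 17592186044416))))

/-- table of the empty sieve: `2 ^ (-i / 10)` rounded up -/
def chkB (L : ℕ) : Bool := allB 901 fun i => Nat.ble (2 ^ 400) (dig L i ^ 10 * 2 ^ i)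

/-- passing to the next octave; indices below `m` are not used -/
def chkC (m L L' : ℕ) : Bool := allB 901 fun i =>
  or (Nat.blt i m) (cond (Nat.ble i 450) (Nat.ble (dig L (2 * i)) (dig L' i))
    (Nat.ble (600 * 1099511627776) (dig L' i * 3 ^ (i / 30))))

/-- `dig L (30 m) ≤ 600 / 3 ^ m` for `2 ≤ m < 15` -/
def chkT (L : ℕ) : Bool := allB 15 fun m =>
  or (Nat.blt m 2) (Nat.ble (dig L (30 * m) * 3 ^ m) (600 * 1099511627776))

/-- upper bounds for `10 ^ 9 log ((10 + q) / (9 + q))`, `1 ≤ q ≤ 10` -/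
def LG (q : ℕ) : ℕ :=
  ([0, 95310181, 87011378, 80042709, 74107974, 68992873, 64538523, 60624623, 57158415, 54067223, 51293296] : List ℕ).getD q 0

/-- `l / 2 ^ 44` bounds the sum of `2 / p` over the block from `h` to `h (10 + q) / (9 + q)`, `180 ≤ h` -/
def chkEll (q h l : ℕ) : Bool :=
  or (Nat.ble (2 ^ 45 * (1087 * LG q * h + 170 * 14426950500)) (l * (10 ^ 12 * h)))
    (Nat.ble (2 ^ 45 * (1000 * LG q * h + 1090 * 14426950500)) (l * (10 ^ 12 * h)))

/-- sum of `2 ^ 45 / n + 1` over the `f` integers `n`, `n + 1`, … coprime to `M`, compared with `s` -/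
def sumI (M s f : ℕ) : ℕ → ℕ → Bool :=
  Nat.rec (fun _ acc => Nat.ble acc s) (fun _ ih n acc =>
    frc (acc + cond (Nat.beq (Nat.gcd n M) 1) (35184372088832 / n + 1) 0) fun acc' =>
      frc (n + 1) fun n' => ih n' acc') f

/-- `s / 2 ^ 44` bounds the sum of `2 / p` over the primes with `2 ^ h ≤ p ^ 10 < 2 ^ (h + 1)`, by a loop
over the integers from `lo` to `hi - 1` -/
def chkD (h lo hi s : ℕ) : Bool :=
  and (Nat.blt ((lo - 1) ^ 10) (2 ^ h)) (and (Nat.ble (2 ^ (h + 1)) (hi ^ 10))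
    (frc (Nat.factorial (min (lo - 1) 511)) fun M => sumI M s (hi - lo) lo 0))

/-- `∑_{x ∈ l} f x + acc`, evaluated, then passed to `k` -/
def sumF {α : Type} (f : α → ℕ) (k : ℕ → Bool) (l : List α) : ℕ → Bool :=
  List.rec (fun acc => k acc) (fun x _ ih acc => frc (acc + f x) ih) l

/-- `∑_{lo ≤ h < lo + n} f h + acc`, evaluated, then passed to `k` -/
def sumR (f : ℕ → ℕ) (k : ℕ → Bool) (n : ℕ) : ℕ → ℕ → Bool :=
  Nat.rec (fun _ acc => k acc) (fun _ ih h acc => frc (acc + f h) fun acc' => ih (h + 1) acc') n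

/-- `num / den ≤ ∑_{k ≤ 14} (lam / 10 ^ 9) ^ k / k!` -/
def chkLam (num den lam : ℕ) : Bool :=
  sumR (fun k => lam ^ k * 10 ^ (9 * (14 - k)) * (Nat.factorial 14 / Nat.factorial k))
    (fun s => Nat.ble (num * (Nat.factorial 14 * 10 ^ 126)) (s * den)) 15 0 0

/-- one term of the block sum of a piece: `t = (b, b', l)` is a block from `b` to `b'` (units `u`) -/
def tm (U a Y κ : ℕ) (t : ℕ × ℕ × ℕ) : ℕ :=
  cond (and (Nat.ble a t.1) (Nat.ble t.1 Y))
    (cond (Nat.ble (t.2.1 + a + κ) (2 * Y))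
      (cdiv (t.2.2 * (Y + 1 - t.1) * dig U (2 * Y - κ - t.2.1)) (2 * (Y + 1) * 1099511627776))
      1152921504606846976) 0

/-- the two bounds for the direct part: `hx` lower end, `yt` upper end, in units of `log 2 / 10`, scaled
by `10 ^ 12` -/
def dir1 (hx yt lam : ℕ) : ℕ :=
  1087 * (lam + cdiv (10 ^ 9 * hx) yt - 10 ^ 9) + cdiv (170 * 14426950500 * (yt - hx)) (yt * hx)

/-- see `dir1` -/
def dir2 (hx yt lam : ℕ) : ℕ :=
  1000 * (lam + cdiv (10 ^ 9 * hx) yt - 10 ^ 9) + cdiv (1090 * 14426950500 * (yt - hx)) (yt * hx)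

/-- check of one piece in the octaves `u ≥ 8` -/
def chkHi (u a Y κ lam : ℕ) (bl : List (ℕ × ℕ × ℕ)) (L U : ℕ) : Bool :=
  and (chkLam (Y + 1) a lam)
    (sumF (tm U a Y κ) (fun s =>
      or (Nat.ble (s * 10 ^ 12 + dir1 (a * u) ((Y + 1) * u) lam * 2 ^ 44 + 2 ^ 44 * 10 ^ 8)
          (2 ^ 44 * (975 * 10 ^ 9)))
        (Nat.ble (s * 10 ^ 12 + dir2 (a * u) ((Y + 1) * u) lam * 2 ^ 44 + 2 ^ 44 * 10 ^ 8)
          (2 ^ 44 * (975 * 10 ^ 9)))) bl (16 * dig L (2 * Y - κ)))

/-- terms of the data region `h < 180` -/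
def td (u a Y kv LSN h : ℕ) : ℕ :=
  cdiv (dig LSN (h - 28) * ((Y + 1) * u - h)) (2 * ((Y + 1) * u))
    + cdiv (dig LSN (h - 28) * (a * u) ^ 2) (kv * 2 ^ (h / 10))

/-- check of one piece in the octaves `u = 1, 2, 4`; the total is at most `T / 1000` -/
def chkLo (T u a Y κ kv lam : ℕ) (bl : List (ℕ × ℕ × ℕ)) (LSN L U : ℕ) : Bool :=
  and (or (Nat.ble ((Y + 1) * u) 180) (chkLam ((Y + 1) * u) (max (a * u) 180) lam))
    (sumF (tm U a Y κ) (fun s =>
      sumR (td u a Y kv LSN) (fun s' =>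
        frc (s' + cdiv (2 ^ 44 * (a * u) ^ 2) (kv * 2 ^ 16)
            + cdiv (2 ^ 44 * 204 * (a * u) ^ 2) (10 * kv * 2 ^ ((Y * u) / 10))) fun s'' =>
          cond (Nat.ble ((Y + 1) * u) 180)
            (Nat.ble (s'' * 1000) (2 ^ 44 * T))
            (or (Nat.ble (s'' * 10 ^ 12 + dir1 (max (a * u) 180) ((Y + 1) * u) lam * 2 ^ 44)
                (2 ^ 44 * (T * 10 ^ 9)))
              (Nat.ble (s'' * 10 ^ 12 + dir2 (max (a * u) 180) ((Y + 1) * u) lam * 2 ^ 44)
                (2 ^ 44 * (T * 10 ^ 9)))))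
        (min 180 ((Y + 1) * u) - a * u) (a * u) s) bl (16 * dig L (2 * Y - κ)))

/-- `c' ≤ V(h') h'^2` follows from `c ≤ V(h) h^2` and `1 / V(block) ≤ dig E 0 / 2 ^ 44` -/
def chkV (c h c' h' E : ℕ) : Bool :=
  Nat.ble (c' * dig E 0 * h ^ 2) (c * 17592186044416 * h' ^ 2)

end Pool.Agent.SX
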