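import Pool.Agent.helper79.SX.T0
import Pool.Agent.helper79.SX.T1
import Pool.Agent.helper79.SX.T2
import Pool.Agent.helper79.SX.T3
import Pool.Agent.helper79.SX.T4
import Pool.Agent.helper79.SX.T5
import Pool.Agent.helper79.SX.T6
import Pool.Agent.helper79.SX.T7
import Pool.Agent.helper79.SX.D

/-! Project sx, certificate data. Generated. -/

set_option autoImplicit false
set_option maxRecDepth 100000

namespace Pool.Agent.SX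

/-- lower table of octave `o` at `30 + 3 q` -/
def LT : ℕ → ℕ → ℕ
  | 0, 0 => L0_0
  | 0, 1 => L0_1
  | 0, 2 => L0_2
  | 0, 3 => L0_3
  | 0, 4 => L0_4
  | 0, 5 => L0_5
  | 0, 6 => L0_6
  | 0, 7 => L0_7
  | 0, 8 => L0_8
  | 0, 9 => L0_9
  | 0, 10 => L0_10
  | 1, 0 => L1_0
  | 1, 1 => L1_1
  | 1, 2 => L1_2
  | 1, 3 => L1_3
  | 1, 4 => L1_4
  | 1, 5 => L1_5
  | 1, 6 => L1_6
  | 1, 7 => L1_7
  | 1, 8 => L1_8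
  | 1, 9 => L1_9
  | 1, 10 => L1_10
  | 2, 0 => L2_0
  | 2, 1 => L2_1
  | 2, 2 => L2_2
  | 2, 3 => L2_3
  | 2, 4 => L2_4
  | 2, 5 => L2_5
  | 2, 6 => L2_6
  | 2, 7 => L2_7
  | 2, 8 => L2_8
  | 2, 9 => L2_9
  | 2, 10 => L2_10
  | 3, 0 => L3_0
  | 3, 1 => L3_1
  | 3, 2 => L3_2
  | 3, 3 => L3_3
  | 3, 4 => L3_4
  | 3, 5 => L3_5
  | 3, 6 => L3_6
  | 3, 7 => L3_7
  | 3, 8 => L3_8
  | 3, 9 => L3_9
  | 3, 10 => L3_10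
  | 4, 0 => L4_0
  | 4, 1 => L4_1
  | 4, 2 => L4_2
  | 4, 3 => L4_3
  | 4, 4 => L4_4
  | 4, 5 => L4_5
  | 4, 6 => L4_6
  | 4, 7 => L4_7
  | 4, 8 => L4_8
  | 4, 9 => L4_9
  | 4, 10 => L4_10
  | 5, 0 => L5_0
  | 5, 1 => L5_1
  | 5, 2 => L5_2
  | 5, 3 => L5_3
  | 5, 4 => L5_4
  | 5, 5 => L5_5
  | 5, 6 => L5_6
  | 5, 7 => L5_7
  | 5, 8 => L5_8
  | 5, 9 => L5_9
  | 5, 10 => L5_10
  | 6, 0 => L6_0
  | 6, 1 => L6_1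
  | 6, 2 => L6_2
  | 6, 3 => L6_3
  | 6, 4 => L6_4
  | 6, 5 => L6_5
  | 6, 6 => L6_6
  | 6, 7 => L6_7
  | 6, 8 => L6_8
  | 6, 9 => L6_9
  | 6, 10 => L6_10
  | 7, 0 => L7_0
  | 7, 1 => L7_1
  | 7, 2 => L7_2
  | 7, 3 => L7_3
  | 7, 4 => L7_4
  | 7, 5 => L7_5
  | 7, 6 => L7_6
  | 7, 7 => L7_7
  | 7, 8 => L7_8
  | 7, 9 => L7_9
  | 7, 10 => L7_10
  | _, _ => 0

/-- upper table of octave `o` at `30 + 3 q` -/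
def UT : ℕ → ℕ → ℕ
  | 0, 0 => U0_0
  | 0, 1 => U0_1
  | 0, 2 => U0_2
  | 0, 3 => U0_3
  | 0, 4 => U0_4
  | 0, 5 => U0_5
  | 0, 6 => U0_6
  | 0, 7 => U0_7
  | 0, 8 => U0_8
  | 0, 9 => U0_9
  | 0, 10 => U0_10
  | 1, 0 => U1_0
  | 1, 1 => U1_1
  | 1, 2 => U1_2
  | 1, 3 => U1_3
  | 1, 4 => U1_4
  | 1, 5 => U1_5
  | 1, 6 => U1_6
  | 1, 7 => U1_7
  | 1, 8 => U1_8
  | 1, 9 => U1_9
  | 1, 10 => U1_10
  | 2, 0 => U2_0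
  | 2, 1 => U2_1
  | 2, 2 => U2_2
  | 2, 3 => U2_3
  | 2, 4 => U2_4
  | 2, 5 => U2_5
  | 2, 6 => U2_6
  | 2, 7 => U2_7
  | 2, 8 => U2_8
  | 2, 9 => U2_9
  | 2, 10 => U2_10
  | 3, 0 => U3_0
  | 3, 1 => U3_1
  | 3, 2 => U3_2
  | 3, 3 => U3_3
  | 3, 4 => U3_4
  | 3, 5 => U3_5
  | 3, 6 => U3_6
  | 3, 7 => U3_7
  | 3, 8 => U3_8
  | 3, 9 => U3_9
  | 3, 10 => U3_10
  | 4, 0 => U4_0
  | 4, 1 => U4_1
  | 4, 2 => U4_2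
  | 4, 3 => U4_3
  | 4, 4 => U4_4
  | 4, 5 => U4_5
  | 4, 6 => U4_6
  | 4, 7 => U4_7
  | 4, 8 => U4_8
  | 4, 9 => U4_9
  | 4, 10 => U4_10
  | 5, 0 => U5_0
  | 5, 1 => U5_1
  | 5, 2 => U5_2
  | 5, 3 => U5_3
  | 5, 4 => U5_4
  | 5, 5 => U5_5
  | 5, 6 => U5_6
  | 5, 7 => U5_7
  | 5, 8 => U5_8
  | 5, 9 => U5_9
  | 5, 10 => U5_10
  | 6, 0 => U6_0
  | 6, 1 => U6_1
  | 6, 2 => U6_2
  | 6, 3 => U6_3
  | 6, 4 => U6_4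
  | 6, 5 => U6_5
  | 6, 6 => U6_6
  | 6, 7 => U6_7
  | 6, 8 => U6_8
  | 6, 9 => U6_9
  | 6, 10 => U6_10
  | 7, 0 => U7_0
  | 7, 1 => U7_1
  | 7, 2 => U7_2
  | 7, 3 => U7_3
  | 7, 4 => U7_4
  | 7, 5 => U7_5
  | 7, 6 => U7_6
  | 7, 7 => U7_7
  | 7, 8 => U7_8
  | 7, 9 => U7_9
  | 7, 10 => U7_10
  | _, _ => 0

/-- block data of octave `o`, block from `27 + 3 q` to `30 + 3 q` -/
def ET : ℕ → ℕ → ℕ
  | 0, 1 => E0_1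
  | 0, 2 => E0_2
  | 0, 3 => E0_3
  | 0, 4 => E0_4
  | 0, 5 => E0_5
  | 0, 6 => E0_6
  | 0, 7 => E0_7
  | 0, 8 => E0_8
  | 0, 9 => E0_9
  | 0, 10 => E0_10
  | 1, 1 => E1_1
  | 1, 2 => E1_2
  | 1, 3 => E1_3
  | 1, 4 => E1_4
  | 1, 5 => E1_5
  | 1, 6 => E1_6
  | 1, 7 => E1_7
  | 1, 8 => E1_8
  | 1, 9 => E1_9
  | 1, 10 => E1_10
  | 2, 1 => E2_1
  | 2, 2 => E2_2
  | 2, 3 => E2_3
  | 2, 4 => E2_4
  | 2, 5 => E2_5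
  | 2, 6 => E2_6
  | 2, 7 => E2_7
  | 2, 8 => E2_8
  | 2, 9 => E2_9
  | 2, 10 => E2_10
  | 3, 1 => E3_1
  | 3, 2 => E3_2
  | 3, 3 => E3_3
  | 3, 4 => E3_4
  | 3, 5 => E3_5
  | 3, 6 => E3_6
  | 3, 7 => E3_7
  | 3, 8 => E3_8
  | 3, 9 => E3_9
  | 3, 10 => E3_10
  | 4, 1 => E4_1
  | 4, 2 => E4_2
  | 4, 3 => E4_3
  | 4, 4 => E4_4
  | 4, 5 => E4_5
  | 4, 6 => E4_6
  | 4, 7 => E4_7
  | 4, 8 => E4_8
  | 4, 9 => E4_9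
  | 4, 10 => E4_10
  | 5, 1 => E5_1
  | 5, 2 => E5_2
  | 5, 3 => E5_3
  | 5, 4 => E5_4
  | 5, 5 => E5_5
  | 5, 6 => E5_6
  | 5, 7 => E5_7
  | 5, 8 => E5_8
  | 5, 9 => E5_9
  | 5, 10 => E5_10
  | 6, 1 => E6_1
  | 6, 2 => E6_2
  | 6, 3 => E6_3
  | 6, 4 => E6_4
  | 6, 5 => E6_5
  | 6, 6 => E6_6
  | 6, 7 => E6_7
  | 6, 8 => E6_8
  | 6, 9 => E6_9
  | 6, 10 => E6_10
  | 7, 1 => E7_1
  | 7, 2 => E7_2
  | 7, 3 => E7_3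
  | 7, 4 => E7_4
  | 7, 5 => E7_5
  | 7, 6 => E7_6
  | 7, 7 => E7_7
  | 7, 8 => E7_8
  | 7, 9 => E7_9
  | 7, 10 => E7_10
  | _, _ => 0

/-- block sum of octave `o`, block from `27 + 3 q` to `30 + 3 q` -/
def EL : ℕ → ℕ → ℕ
  | 0, 1 => l0_1
  | 0, 2 => l0_2
  | 0, 3 => l0_3
  | 0, 4 => l0_4
  | 0, 5 => l0_5
  | 0, 6 => l0_6
  | 0, 7 => l0_7
  | 0, 8 => l0_8
  | 0, 9 => l0_9
  | 0, 10 => l0_10
  | 1, 1 => l1_1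
  | 1, 2 => l1_2
  | 1, 3 => l1_3
  | 1, 4 => l1_4
  | 1, 5 => l1_5
  | 1, 6 => l1_6
  | 1, 7 => l1_7
  | 1, 8 => l1_8
  | 1, 9 => l1_9
  | 1, 10 => l1_10
  | 2, 1 => l2_1
  | 2, 2 => l2_2
  | 2, 3 => l2_3
  | 2, 4 => l2_4
  | 2, 5 => l2_5
  | 2, 6 => l2_6
  | 2, 7 => l2_7
  | 2, 8 => l2_8
  | 2, 9 => l2_9
  | 2, 10 => l2_10
  | 3, 1 => l3_1
  | 3, 2 => l3_2
  | 3, 3 => l3_3
  | 3, 4 => l3_4
  | 3, 5 => l3_5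
  | 3, 6 => l3_6
  | 3, 7 => l3_7
  | 3, 8 => l3_8
  | 3, 9 => l3_9
  | 3, 10 => l3_10
  | 4, 1 => l4_1
  | 4, 2 => l4_2
  | 4, 3 => l4_3
  | 4, 4 => l4_4
  | 4, 5 => l4_5
  | 4, 6 => l4_6
  | 4, 7 => l4_7
  | 4, 8 => l4_8
  | 4, 9 => l4_9
  | 4, 10 => l4_10
  | 5, 1 => l5_1
  | 5, 2 => l5_2
  | 5, 3 => l5_3
  | 5, 4 => l5_4
  | 5, 5 => l5_5
  | 5, 6 => l5_6
  | 5, 7 => l5_7
  | 5, 8 => l5_8
  | 5, 9 => l5_9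
  | 5, 10 => l5_10
  | 6, 1 => l6_1
  | 6, 2 => l6_2
  | 6, 3 => l6_3
  | 6, 4 => l6_4
  | 6, 5 => l6_5
  | 6, 6 => l6_6
  | 6, 7 => l6_7
  | 6, 8 => l6_8
  | 6, 9 => l6_9
  | 6, 10 => l6_10
  | 7, 1 => l7_1
  | 7, 2 => l7_2
  | 7, 3 => l7_3
  | 7, 4 => l7_4
  | 7, 5 => l7_5
  | 7, 6 => l7_6
  | 7, 7 => l7_7
  | 7, 8 => l7_8
  | 7, 9 => l7_9
  | 7, 10 => l7_10
  | _, _ => 0

/-- one block -/
theorem step_all : ∀ o < 8, ∀ q < 10,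
    chkE (EL o (q + 1)) ((30 + 3 * q) * 2 ^ o) (ET o (q + 1)) = true ∧
    chkL (ET o (q + 1)) (33 + 3 * q) (LT o q) (UT o q) (LT o (q + 1)) = true ∧
    chkU (ET o (q + 1)) (33 + 3 * q) (LT o q) (UT o q) (UT o (q + 1)) = true := by
  intro o ho q hq
  interval_cases o <;> interval_cases q
  · exact ⟨sE0_1, sL0_1, sU0_1⟩
  · exact ⟨sE0_2, sL0_2, sU0_2⟩
  · exact ⟨sE0_3, sL0_3, sU0_3⟩
  · exact ⟨sE0_4, sL0_4, sU0_4⟩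
  · exact ⟨sE0_5, sL0_5, sU0_5⟩
  · exact ⟨sE0_6, sL0_6, sU0_6⟩
  · exact ⟨sE0_7, sL0_7, sU0_7⟩
  · exact ⟨sE0_8, sL0_8, sU0_8⟩
  · exact ⟨sE0_9, sL0_9, sU0_9⟩
  · exact ⟨sE0_10, sL0_10, sU0_10⟩
  · exact ⟨sE1_1, sL1_1, sU1_1⟩
  · exact ⟨sE1_2, sL1_2, sU1_2⟩
  · exact ⟨sE1_3, sL1_3, sU1_3⟩
  · exact ⟨sE1_4, sL1_4, sU1_4⟩
  · exact ⟨sE1_5, sL1_5, sU1_5⟩
  · exact ⟨sE1_6, sL1_6, sU1_6⟩
  · exact ⟨sE1_7, sL1_7, sU1_7⟩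
  · exact ⟨sE1_8, sL1_8, sU1_8⟩
  · exact ⟨sE1_9, sL1_9, sU1_9⟩
  · exact ⟨sE1_10, sL1_10, sU1_10⟩
  · exact ⟨sE2_1, sL2_1, sU2_1⟩
  · exact ⟨sE2_2, sL2_2, sU2_2⟩
  · exact ⟨sE2_3, sL2_3, sU2_3⟩
  · exact ⟨sE2_4, sL2_4, sU2_4⟩
  · exact ⟨sE2_5, sL2_5, sU2_5⟩
  · exact ⟨sE2_6, sL2_6, sU2_6⟩
  · exact ⟨sE2_7, sL2_7, sU2_7⟩
  · exact ⟨sE2_8, sL2_8, sU2_8⟩
  · exact ⟨sE2_9, sL2_9, sU2_9⟩
  · exact ⟨sE2_10, sL2_10, sU2_10⟩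
  · exact ⟨sE3_1, sL3_1, sU3_1⟩
  · exact ⟨sE3_2, sL3_2, sU3_2⟩
  · exact ⟨sE3_3, sL3_3, sU3_3⟩
  · exact ⟨sE3_4, sL3_4, sU3_4⟩
  · exact ⟨sE3_5, sL3_5, sU3_5⟩
  · exact ⟨sE3_6, sL3_6, sU3_6⟩
  · exact ⟨sE3_7, sL3_7, sU3_7⟩
  · exact ⟨sE3_8, sL3_8, sU3_8⟩
  · exact ⟨sE3_9, sL3_9, sU3_9⟩
  · exact ⟨sE3_10, sL3_10, sU3_10⟩
  · exact ⟨sE4_1, sL4_1, sU4_1⟩
  · exact ⟨sE4_2, sL4_2, sU4_2⟩
  · exact ⟨sE4_3, sL4_3, sU4_3⟩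
  · exact ⟨sE4_4, sL4_4, sU4_4⟩
  · exact ⟨sE4_5, sL4_5, sU4_5⟩
  · exact ⟨sE4_6, sL4_6, sU4_6⟩
  · exact ⟨sE4_7, sL4_7, sU4_7⟩
  · exact ⟨sE4_8, sL4_8, sU4_8⟩
  · exact ⟨sE4_9, sL4_9, sU4_9⟩
  · exact ⟨sE4_10, sL4_10, sU4_10⟩
  · exact ⟨sE5_1, sL5_1, sU5_1⟩
  · exact ⟨sE5_2, sL5_2, sU5_2⟩
  · exact ⟨sE5_3, sL5_3, sU5_3⟩
  · exact ⟨sE5_4, sL5_4, sU5_4⟩
  · exact ⟨sE5_5, sL5_5, sU5_5⟩
  · exact ⟨sE5_6, sL5_6, sU5_6⟩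
  · exact ⟨sE5_7, sL5_7, sU5_7⟩
  · exact ⟨sE5_8, sL5_8, sU5_8⟩
  · exact ⟨sE5_9, sL5_9, sU5_9⟩
  · exact ⟨sE5_10, sL5_10, sU5_10⟩
  · exact ⟨sE6_1, sL6_1, sU6_1⟩
  · exact ⟨sE6_2, sL6_2, sU6_2⟩
  · exact ⟨sE6_3, sL6_3, sU6_3⟩
  · exact ⟨sE6_4, sL6_4, sU6_4⟩
  · exact ⟨sE6_5, sL6_5, sU6_5⟩
  · exact ⟨sE6_6, sL6_6, sU6_6⟩
  · exact ⟨sE6_7, sL6_7, sU6_7⟩
  · exact ⟨sE6_8, sL6_8, sU6_8⟩
  · exact ⟨sE6_9, sL6_9, sU6_9⟩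
  · exact ⟨sE6_10, sL6_10, sU6_10⟩
  · exact ⟨sE7_1, sL7_1, sU7_1⟩
  · exact ⟨sE7_2, sL7_2, sU7_2⟩
  · exact ⟨sE7_3, sL7_3, sU7_3⟩
  · exact ⟨sE7_4, sL7_4, sU7_4⟩
  · exact ⟨sE7_5, sL7_5, sU7_5⟩
  · exact ⟨sE7_6, sL7_6, sU7_6⟩
  · exact ⟨sE7_7, sL7_7, sU7_7⟩
  · exact ⟨sE7_8, sL7_8, sU7_8⟩
  · exact ⟨sE7_9, sL7_9, sU7_9⟩
  · exact ⟨sE7_10, sL7_10, sU7_10⟩

/-- passing to the next octave -/
theorem coarse_all : ∀ o < 8, chkC 0 (LT o 10) (LT (min (o + 1) 7) 0) = true ∧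
    chkC 30 (UT o 10) (UT (min (o + 1) 7) 0) = true := by
  intro o ho
  interval_cases o
  · exact ⟨by decide +kernel, by decide +kernel⟩
  · exact ⟨by decide +kernel, by decide +kernel⟩
  · exact ⟨by decide +kernel, by decide +kernel⟩
  · exact ⟨by decide +kernel, by decide +kernel⟩
  · exact ⟨by decide +kernel, by decide +kernel⟩
  · exact ⟨by decide +kernel, by decide +kernel⟩
  · exact ⟨by decide +kernel, by decide +kernel⟩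
  · exact ⟨by decide +kernel, by decide +kernel⟩

/-- the tail condition -/
theorem tail_all : ∀ o < 8, chkT (LT o 0) = true ∧ chkT (UT o 0) = true := by
  intro o ho
  interval_cases o
  · exact ⟨by decide +kernel, by decide +kernel⟩
  · exact ⟨by decide +kernel, by decide +kernel⟩
  · exact ⟨by decide +kernel, by decide +kernel⟩
  · exact ⟨by decide +kernel, by decide +kernel⟩
  · exact ⟨by decide +kernel, by decide +kernel⟩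
  · exact ⟨by decide +kernel, by decide +kernel⟩
  · exact ⟨by decide +kernel, by decide +kernel⟩
  · exact ⟨by decide +kernel, by decide +kernel⟩

/-- digit `10 o + q` of `VTN` is a lower bound for `1000 V(h) h ^ 2`, `h = (30 + 3 q) 2 ^ o` -/
def VTN : ℕ := 0x4713400000004761e000000047b540000000480df0000000486ca000000048d230000000493fa000000049b6300000004a37700000004ac5700000004b62e00000004c0a000000004cbc000000004d7a400000004e46600000004f22700000005010e00000005114d0000000523220000000536de000000054cea000000055cc4000000056daf000000057fcd00000005934800000005a85400000005bf2e00000005d82500000005f39b00000006120e000000063424000000064b06000000066383000000067dd2000000069a3500000006b8fb00000006da8700000006ff540000000727fd00000007554c00000007884c00000007aea100000007d7e400000008047e0000000834ed0000000869cd00000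008a3df00000008e416000000092ba8000000097c2c00000009d7c20000000a25a30000000a7a6c0000000ad72b0000000b3d2d0000000bae0e0000000bad8b0000000bacab0000000baa660000000ba8bb0000000ba2600000000ba12d0000000b9da30000000b99cc0000000b8c360000000b81700000000b84a30000000ba2490000000b852d0000000b588b0000000b43e20000000b5c190000000b35180000000b26a10000000b7a630000000b1ffb0000000ae8ce0000000ae5940000000b40ee0000000bde8000000009cf29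

theorem V_zero : dig VTN 0 = 642857 := by decide +kernel

theorem V_step : ∀ o < 8, ∀ q < 10,
    chkV (dig VTN (10 * o + q)) ((30 + 3 * q) * 2 ^ o) (dig VTN (10 * o + q + 1)) ((33 + 3 * q) * 2 ^ o)
      (ET o (q + 1)) = true := by
  intro o ho q hq
  interval_cases o <;> interval_cases q <;> decide +kernel

/-- lower bounds for `V(h) h ^ 2` in the octave `o` -/
def KV (o : ℕ) : ℕ := ([600, 700, 660, 500, 400, 340, 300, 280] : List ℕ).getD o 280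

theorem V_min : ∀ o < 8, ∀ q < 10, KV o * 1000 ≤ dig VTN (10 * o + q) := by
  intro o ho q hq
  interval_cases o <;> interval_cases q <;> decide +kernel

theorem V_nine : 744000 ≤ dig VTN 9 := by decide +kernel

theorem V_last : 291000 ≤ dig VTN 80 := by decide +kernel

/-- data blocks -/
theorem ell_data : (∀ q < 10, EL 0 (q + 1) = ((List.range 3).map fun j => dig LSN (2 + 3 * q + j)).sum) ∧
    (∀ q < 10, EL 1 (q + 1) = ((List.range 6).map fun j => dig LSN (32 + 6 * q + j)).sum) ∧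
    (∀ q < 5, EL 2 (q + 1) = ((List.range 12).map fun j => dig LSN (92 + 12 * q + j)).sum) := by
  refine ⟨fun q hq => ?_, fun q hq => ?_, fun q hq => ?_⟩ <;> interval_cases q <;> decide +kernel

theorem linit_data : linit = dig LSN 0 + dig LSN 1 := by decide +kernel

/-- formula blocks -/
theorem ell_formula : ∀ o < 8, ∀ q < 10, 180 ≤ (30 + 3 * q) * 2 ^ o →
    chkEll (q + 1) ((30 + 3 * q) * 2 ^ o) (EL o (q + 1)) = true := by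
  intro o ho q hq h
  interval_cases o <;> interval_cases q <;> first | (exfalso; revert h; decide) | decide +kernel

end Pool.Agent.SX
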